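import Pool.Agent.H85.HY.Par

/-! # The choice of `a` and `B₀` over an arbitrary number field -/

set_option autoImplicit false

namespace Pool.Agent.H85.HY

open NumberField IsDedekindDomain WithZero

section ff

variable {κ : Type} [Field κ] [Finite κ]

lemma ff_nonzero (h2 : (2 : κ) ≠ 0) : ∃ b y : κ, y ≠ 0 ∧ -(1 + b ^ 2) = y ^ 2 := by
  obtain ⟨s, t, h⟩ := Pool.Agent.H85.BM.ff_repr h2 (-1) (-1) (neg_ne_zero.2 one_ne_zero)
  by_cases ht : t = 0
  · refine ⟨0, s, ?_, ?_⟩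
    · rintro rfl
      rw [ht] at h
      apply one_ne_zero (α := κ)
      linear_combination h
    · rw [ht] at h
      linear_combination -h
  · exact ⟨s, t, ht, by linear_combination -h⟩

lemma ff_nonsquare (h2 : (2 : κ) ≠ 0) : ∃ b : κ, ¬ IsSquare (-(1 + b ^ 2)) := by
  by_contra hcon
  rw [not_exists] at hcon
  have h1 : ∀ b : κ, IsSquare (-(1 + b ^ 2)) := fun b => not_not.1 (hcon b)
  obtain ⟨i, hi⟩ := h1 0
  have h3 : ∀ b : κ, IsSquare (b ^ 2 + 1) := by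
    intro b
    obtain ⟨c, hc⟩ := h1 b
    refine ⟨i * c, ?_⟩
    linear_combination -hc + hi * c ^ 2
  have hc2 : ringChar κ ≠ 2 := by
    intro h
    apply h2
    have := ringChar.Nat.cast_ringChar (R := κ)
    rw [h] at this
    exact_mod_cast this
  obtain ⟨x, hx⟩ := FiniteField.exists_nonsquare hc2
  apply hx
  obtain ⟨s, t, h⟩ := Pool.Agent.H85.BM.ff_repr h2 (-1) x (neg_ne_zero.2 one_ne_zero)
  by_cases ht : t = 0
  · refine ⟨s, ?_⟩
    rw [← h, ht]
    ring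
  · obtain ⟨c, hc⟩ := h3 (s / t)
    refine ⟨t * c, ?_⟩
    have h4 : x = t ^ 2 * ((s / t) ^ 2 + 1) := by
      rw [← h]
      field_simp
      ring
    rw [h4, hc]
    ring

end ff

section nf

variable (K : Type) [Field K] [NumberField K]

lemma exists_three : ∃ v : HeightOneSpectrum (𝓞 K), (3 : 𝓞 K) ∈ v.asIdeal := by
  have h1 : Ideal.span {(3 : 𝓞 K)} ≠ ⊤ := by
    intro h
    have h2 : Ideal.absNorm (Ideal.span {((3 : ℕ) : 𝓞 K)}) = 1 := by
      rw [Ideal.absNorm_eq_one_iff]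
      exact_mod_cast h
    rw [Ideal.absNorm_span_natCast, RingOfIntegers.rank] at h2
    have h3 : 0 < Module.finrank ℚ K := Module.finrank_pos
    rw [pow_eq_one_iff] at h2
    omega
  obtain ⟨M, hM, hle⟩ := Ideal.exists_le_maximal _ h1
  have h3 : (3 : 𝓞 K) ∈ M := hle (Ideal.subset_span rfl)
  refine ⟨⟨M, hM.isPrime, ?_⟩, h3⟩
  rintro rfl
  rw [Ideal.mem_bot] at h3
  norm_num at h3

lemma exists_a : ∃ (v : HeightOneSpectrum (𝓞 K)) (a k : 𝓞 K), a = 1 + 8 * k ∧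
    (∀ σ : K →+* ℝ, 0 < σ (algebraMap (𝓞 K) K a)) ∧ v.intValuation a = exp (-1) := by
  obtain ⟨v, hv⟩ := exists_three K
  obtain ⟨π, hπ⟩ := v.intValuation_exists_uniformizer
  obtain ⟨M, hM⟩ := exists_nat_ge (∑ φ : K →+* ℂ, ‖φ (algebraMap (𝓞 K) K π)‖)
  refine ⟨v, 9 + 72 * (M : 𝓞 K) - 8 * π, 1 + 9 * (M : 𝓞 K) - π, by ring, ?_, ?_⟩
  · intro σ
    have h1 : |σ (algebraMap (𝓞 K) K π)| ≤ M := by
      refine le_trans ?_ hM
      have h2 : |σ (algebraMap (𝓞 K) K π)| = ‖(Complex.ofRealHom.comp σ) (algebraMap (𝓞 K) K π)‖ := by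
        rw [RingHom.comp_apply, Complex.ofRealHom_eq_coe, Complex.norm_real, Real.norm_eq_abs]
      rw [h2]
      exact Finset.single_le_sum (f := fun φ : K →+* ℂ => ‖φ (algebraMap (𝓞 K) K π)‖)
        (fun _ _ => norm_nonneg _) (Finset.mem_univ _)
    have h3 : σ (algebraMap (𝓞 K) K (9 + 72 * (M : 𝓞 K) - 8 * π)) =
        9 + 72 * (M : ℝ) - 8 * σ (algebraMap (𝓞 K) K π) := by
      simp only [map_sub, map_add, map_mul, map_ofNat, map_natCast]
    rw [h3]
    have h4 := le_abs_self (σ (algebraMap (𝓞 K) K π))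
    have h5 : (0 : ℝ) ≤ M := Nat.cast_nonneg M
    linarith
  · have h8 : v.intValuation (8 * π) = exp (-1) := by
      rw [map_mul, hπ]
      have h9 : v.intValuation (8 : 𝓞 K) = 1 := by
        by_contra hcon
        have h10 : v.intValuation (8 : 𝓞 K) < 1 :=
          lt_of_le_of_ne (v.intValuation_le_one _) hcon
        rw [HeightOneSpectrum.intValuation_lt_one_iff_mem] at h10
        apply v.isPrime.ne_top
        rw [Ideal.eq_top_iff_one]
        have h11 : (1 : 𝓞 K) = 3 * 3 - 8 := by norm_num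
        rw [h11]
        exact Ideal.sub_mem _ (Ideal.mul_mem_left _ _ hv) h10
      rw [h9, one_mul]
    have h9 : v.intValuation (9 + 72 * (M : 𝓞 K)) < v.intValuation (8 * π) := by
      rw [h8]
      have h10 : v.intValuation (9 + 72 * (M : 𝓞 K)) ≤ exp (-(2 : ℕ) : ℤ) := by
        rw [HeightOneSpectrum.intValuation_le_pow_iff_mem]
        have h11 : 9 + 72 * (M : 𝓞 K) = (1 + 8 * (M : 𝓞 K)) * 3 ^ 2 := by ring
        rw [h11]
        exact Ideal.mul_mem_left _ _ (Ideal.pow_mem_pow hv 2)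
      refine lt_of_le_of_lt h10 ?_
      rw [exp_lt_exp]
      norm_num
    rw [Valuation.map_sub_eq_of_lt_right _ h9, h8]

lemma exists_res (v w : HeightOneSpectrum (𝓞 K)) (h2 : (2 : 𝓞 K) ∉ w.asIdeal) :
    ∃ b : 𝓞 K, -(1 + b ^ 2) ∉ w.asIdeal ∧
      (IsSquare (Ideal.Quotient.mk w.asIdeal (-(1 + b ^ 2))) ↔ w ≠ v) := by
  have hwm : w.asIdeal.IsMaximal := w.isMaximal
  let _ : Field (𝓞 K ⧸ w.asIdeal) := Ideal.Quotient.field w.asIdeal
  have fin2 : Finite (𝓞 K ⧸ w.asIdeal) := by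
    apply Nat.finite_of_card_ne_zero
    exact fun h => w.ne_bot (Ideal.absNorm_eq_zero_iff.1 h)
  have h2' : (2 : 𝓞 K ⧸ w.asIdeal) ≠ 0 := by
    intro h
    apply h2
    rw [← Ideal.Quotient.eq_zero_iff_mem, map_ofNat]
    exact h
  by_cases hvw : w = v
  · obtain ⟨b, hb⟩ := ff_nonsquare h2'
    obtain ⟨b, rfl⟩ := Ideal.Quotient.mk_surjective b
    have h3 : Ideal.Quotient.mk w.asIdeal (-(1 + b ^ 2)) =
        -(1 + Ideal.Quotient.mk w.asIdeal b ^ 2) := by
      rw [map_neg, map_add, map_one, map_pow]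
    refine ⟨b, ?_, ?_⟩
    · intro h
      rw [← Ideal.Quotient.eq_zero_iff_mem, h3] at h
      apply hb
      rw [h]
      exact IsSquare.zero
    · rw [h3]
      exact ⟨fun h => absurd h hb, fun h => absurd hvw h⟩
  · obtain ⟨b, y, hy, hb⟩ := ff_nonzero h2'
    obtain ⟨b, rfl⟩ := Ideal.Quotient.mk_surjective b
    have h3 : Ideal.Quotient.mk w.asIdeal (-(1 + b ^ 2)) =
        -(1 + Ideal.Quotient.mk w.asIdeal b ^ 2) := by
      rw [map_neg, map_add, map_one, map_pow]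
    refine ⟨b, ?_, ?_⟩
    · intro h
      rw [← Ideal.Quotient.eq_zero_iff_mem, h3, hb] at h
      exact hy (pow_eq_zero_iff two_ne_zero |>.1 h)
    · rw [h3, hb]
      exact ⟨fun _ => hvw, fun _ => IsSquare.sq y⟩

theorem con1 : ∃ (v : HeightOneSpectrum (𝓞 K)) (a B₀ k b r : 𝓞 K), a = 1 + 8 * k ∧
    B₀ = 1 + 4 * b ∧ r = 2 * a - 1 - B₀ ^ 2 ∧
    (∀ σ : K →+* ℝ, 0 < σ (algebraMap (𝓞 K) K a)) ∧ v.intValuation a = exp (-1) ∧
    IsCoprime r a ∧ Bad a r = {v} := by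
  classical
  obtain ⟨v, a, k, ha, hpos, hva⟩ := exists_a K
  have ha0 : a ≠ 0 := by
    rintro rfl
    rw [map_zero] at hva
    exact exp_ne_zero hva.symm
  have hI : Ideal.span {a} ≠ 0 := by
    rw [Ne, Ideal.zero_eq_bot, Ideal.span_singleton_eq_bot]
    exact ha0
  have hW := Ideal.finite_factors hI
  have hmem : ∀ w : HeightOneSpectrum (𝓞 K), w ∈ hW.toFinset ↔ a ∈ w.asIdeal := by
    intro w
    rw [Set.Finite.mem_toFinset, Set.mem_ofPred_eq, Ideal.dvd_span_singleton]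
  have h2 : ∀ w : HeightOneSpectrum (𝓞 K), a ∈ w.asIdeal → (2 : 𝓞 K) ∉ w.asIdeal := by
    intro w haw h2w
    apply w.isPrime.ne_top
    rw [Ideal.eq_top_iff_one]
    have h3 : (1 : 𝓞 K) = a - (4 * k) * 2 := by
      rw [ha]
      ring
    rw [h3]
    exact Ideal.sub_mem _ haw (Ideal.mul_mem_left _ _ h2w)
  have hex : ∀ w : HeightOneSpectrum (𝓞 K), ∃ b : 𝓞 K, a ∈ w.asIdeal →
      -(1 + b ^ 2) ∉ w.asIdeal ∧
      (IsSquare (Ideal.Quotient.mk w.asIdeal (-(1 + b ^ 2))) ↔ w ≠ v) := by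
    intro w
    by_cases haw : a ∈ w.asIdeal
    · obtain ⟨b, hb⟩ := exists_res K v w (h2 w haw)
      exact ⟨b, fun _ => hb⟩
    · exact ⟨0, fun h => absurd h haw⟩
  choose β hβ using hex
  obtain ⟨B₁, hB₁⟩ := IsDedekindDomain.exists_forall_sub_mem_ideal (s := hW.toFinset)
    (fun w : HeightOneSpectrum (𝓞 K) => w.asIdeal) (fun _ => 1) (fun w _ => w.prime)
    (fun w _ w' _ hne h => hne (HeightOneSpectrum.ext h)) (fun w => β w)
  have hB₁' : ∀ w : HeightOneSpectrum (𝓞 K), a ∈ w.asIdeal → B₁ - β w ∈ w.asIdeal := by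
    intro w haw
    have h3 := hB₁ w ((hmem w).2 haw)
    rw [pow_one] at h3
    exact h3
  set B₀ : 𝓞 K := B₁ + a * (1 - B₁) with hB₀
  set r : 𝓞 K := 2 * a - 1 - B₀ ^ 2 with hr
  have hmod : ∀ w : HeightOneSpectrum (𝓞 K), a ∈ w.asIdeal →
      Ideal.Quotient.mk w.asIdeal r = Ideal.Quotient.mk w.asIdeal (-(1 + β w ^ 2)) := by
    intro w haw
    rw [Ideal.Quotient.eq]
    have h3 : r - -(1 + β w ^ 2) = a * (2 - 2 * B₁ * (1 - B₁) - a * (1 - B₁) ^ 2) -
        (B₁ - β w) * (B₁ + β w) := by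
      rw [hr, hB₀]
      ring
    rw [h3]
    exact Ideal.sub_mem _ (Ideal.mul_mem_right _ _ haw) (Ideal.mul_mem_right _ _ (hB₁' w haw))
  have hrn : ∀ w : HeightOneSpectrum (𝓞 K), a ∈ w.asIdeal → r ∉ w.asIdeal := by
    intro w haw h
    rw [← Ideal.Quotient.eq_zero_iff_mem, hmod w haw, Ideal.Quotient.eq_zero_iff_mem] at h
    exact (hβ w haw).1 h
  have hav : a ∈ v.asIdeal := by
    rw [← HeightOneSpectrum.intValuation_lt_one_iff_mem, hva, ← exp_zero, exp_lt_exp]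
    norm_num
  refine ⟨v, a, B₀, k, -(2 * k * (B₁ - 1)), r, ha, ?_, rfl, hpos, hva, ?_, ?_⟩
  · rw [hB₀, ha]
    ring
  · rw [← Ideal.isCoprime_span_singleton_iff, Ideal.isCoprime_iff_sup_eq]
    by_contra hcon
    obtain ⟨M, hM, hle⟩ := Ideal.exists_le_maximal _ hcon
    have h3 : a ∈ M := hle (Ideal.mem_sup_right (Ideal.mem_span_singleton_self a))
    have h4 : r ∈ M := hle (Ideal.mem_sup_left (Ideal.mem_span_singleton_self r))
    have h5 : M ≠ ⊥ := by
      rintro rfl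
      exact ha0 (Ideal.mem_bot.1 h3)
    exact hrn ⟨M, hM.isPrime, h5⟩ h3 h4
  · ext w
    rw [Set.mem_singleton_iff]
    unfold Bad OddVal
    rw [Set.mem_ofPred_eq]
    constructor
    · rintro ⟨⟨j, hj⟩, h3⟩
      have haw : a ∈ w.asIdeal := by
        rw [← HeightOneSpectrum.intValuation_lt_one_iff_mem]
        refine lt_of_le_of_ne (w.intValuation_le_one a) ?_
        intro h4
        rw [h4, ← exp_zero, exp_inj] at hj
        omega
      rw [hmod w haw, (hβ w haw).2] at h3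
      exact not_not.1 h3
    · rintro rfl
      refine ⟨⟨-1, by rw [hva]; norm_num⟩, ?_⟩
      rw [hmod w hav, (hβ w hav).2]
      exact fun h => h rfl

end nf

end Pool.Agent.H85.HY
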