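import Mathlib

/-! # The construction of the integers -/

set_option autoImplicit false

namespace Pool.Agent.H85.HY

section crt

variable {R : Type} [CommRing R]

lemma crt2 {m n : R} (h : IsCoprime m n) (x y : R) : ∃ z, m ∣ z - x ∧ n ∣ z - y := by
  obtain ⟨u, v, huv⟩ := h
  refine ⟨v * n * x + u * m * y, ⟨u * (y - x), ?_⟩, ⟨v * (x - y), ?_⟩⟩
  · linear_combination x * huv
  · linear_combination y * huv

lemma crt3 {l m n : R} (h1 : IsCoprime l m) (h2 : IsCoprime l n) (h3 : IsCoprime m n)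
    (x y z : R) : ∃ b, l ∣ b - x ∧ m ∣ b - y ∧ n ∣ b - z := by
  obtain ⟨c, hc1, hc2⟩ := crt2 h3 y z
  obtain ⟨b, hb1, hb2⟩ := crt2 (h1.mul_right h2) x c
  refine ⟨b, hb1, ?_, ?_⟩
  · have h4 : b - y = (b - c) + (c - y) := by ring
    rw [h4]
    exact dvd_add ((Dvd.intro _ rfl).trans hb2) hc1
  · have h4 : b - z = (b - c) + (c - z) := by ring
    rw [h4]
    exact dvd_add ((Dvd.intro_left _ rfl).trans hb2) hc2

/-- the integers `G, δ, x, y` -/
theorem con2 [IsDomain R] [CharZero R] (a B₀ k b r : R) (ha : a = 1 + 8 * k)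
    (hB₀ : B₀ = 1 + 4 * b) (hr : r = 2 * a - 1 - B₀ ^ 2) (hra : IsCoprime r a) (hr0 : r ≠ 0) :
    ∃ G δ x y B : R, r * δ + a ^ 2 * G = 1 ∧
      r * G + x ^ 2 = (r - a) * (δ + a * G) + a * y ^ 2 ∧
      (r * G + x ^ 2) * (r ^ 2 - a * (r - a) ^ 2) = r ^ 2 - a * B ^ 2 ∧
      ¬ (x = 0 ∧ y = 0) := by
  have h20 : (2 : R) ≠ 0 := two_ne_zero
  set ρ : R := 2 * k - b - 2 * b ^ 2 with hρ
  have hrρ : r = 8 * ρ := by
    rw [hr, ha, hB₀, hρ]
    ring
  have hR : r - a = a - 1 - B₀ ^ 2 := by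
    rw [hr]
    ring
  set S : R := r - a with hS
  set N : R := r ^ 2 - a * S ^ 2 with hN
  have hrS : IsCoprime r S := by
    have h1 : S = -a + r * 1 := by rw [hS]; ring
    rw [h1]
    exact IsCoprime.add_mul_left_right (hra.neg_right) 1
  have h2r : (2 : R) ∣ r := ⟨4 * ρ, by rw [hrρ]; ring⟩
  have h2S : IsCoprime 2 S := IsCoprime.of_isCoprime_of_dvd_left hrS h2r
  have h2rS : IsCoprime (2 * r) S := h2S.mul_left hrS
  have hNr : IsCoprime r N := by
    have h1 : N = -(a * S ^ 2) + r * r := by rw [hN]; ring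
    rw [h1]
    exact IsCoprime.add_mul_left_right ((hra.mul_right hrS.pow_right).neg_right) r
  have hN2 : IsCoprime 2 N := IsCoprime.of_isCoprime_of_dvd_left hNr h2r
  have hNS : IsCoprime S N := by
    have h1 : N = r ^ 2 + S * (-(a * S)) := by rw [hN]; ring
    rw [h1]
    exact IsCoprime.add_mul_left_right (hrS.symm.pow_right) _
  obtain ⟨B, ⟨t1, h1⟩, ⟨t2, h2⟩, ⟨t3, h3⟩⟩ := crt3 h2rS (hN2.mul_left hNr) hNS
    (1 + 4 * ρ) B₀ S
  have e1 : B = 1 + 4 * ρ + 2 * r * t1 := by linear_combination h1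
  have e2 : B = B₀ + S * t2 := by linear_combination h2
  have e3 : B = S + N * t3 := by linear_combination h3
  -- `y`
  set y : R := ρ + 2 * (1 + 4 * ρ) * t1 + 16 * ρ * t1 ^ 2 with hy
  have ey : 2 * r * y = B ^ 2 - r - 1 := by
    rw [e1, hy, hrρ]
    ring
  -- `x`
  obtain ⟨x, ex⟩ : ∃ x, 2 * S * x = 1 + B ^ 2 - r := by
    have h4 : 1 + B ^ 2 - r = S * (-2 + 2 * B₀ * t2 + S * t2 ^ 2) := by
      rw [e2]
      linear_combination 2 * hS + hr
    have h5 : (2 : R) ∣ 1 + B ^ 2 - r := by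
      refine ⟨1 + r * y, ?_⟩
      linear_combination -ey
    have h6 : (2 : R) ∣ -2 + 2 * B₀ * t2 + S * t2 ^ 2 := by
      rw [h4] at h5
      exact h2S.dvd_of_dvd_mul_left h5
    obtain ⟨x, hx⟩ := h6
    exact ⟨x, by rw [h4, hx]; ring⟩
  have e4 : S * x - r * y = 1 := by
    apply mul_left_cancel₀ h20
    linear_combination ex - ey
  have e5 : S * x + r * y = B ^ 2 - r := by
    apply mul_left_cancel₀ h20
    linear_combination ex + ey
  -- `G`
  obtain ⟨G, eG⟩ : N ∣ S - r * (x ^ 2 - a * y ^ 2) := by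
    have h4 : IsCoprime N (r * S ^ 2) := (hNr.mul_left (hNS.pow_left)).symm
    apply h4.dvd_of_dvd_mul_left
    have h5 : r * S ^ 2 * (S - r * (x ^ 2 - a * y ^ 2)) =
        r * S ^ 3 - r ^ 2 * (S * x) ^ 2 + (a * S ^ 2) * (r * y) ^ 2 := by ring
    have h6 : a * S ^ 2 = r ^ 2 - N := by rw [hN]; ring
    have h7 : r ^ 2 * (S * x) ^ 2 - r ^ 2 * (r * y) ^ 2 = r ^ 2 * (B ^ 2 - r) := by
      linear_combination r ^ 2 * (S * x + r * y) * e4 + r ^ 2 * e5
    have h8 : r * S ^ 3 - r ^ 2 * S ^ 2 + r ^ 3 = r * N := by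
      rw [hN, hS]
      ring
    refine ⟨r - r ^ 2 * (2 * S * t3 + N * t3 ^ 2) - (r * y) ^ 2, ?_⟩
    rw [h5, h6]
    have h9 : B ^ 2 = S ^ 2 + N * (2 * S * t3 + N * t3 ^ 2) := by
      rw [e3]
      ring
    linear_combination -h7 + h8 - r ^ 2 * h9
  -- `D`
  obtain ⟨D, eD⟩ : r ∣ 1 + a * S * G := by
    apply hrS.dvd_of_dvd_mul_left
    refine ⟨x ^ 2 - a * y ^ 2 + r * G, ?_⟩
    have h4 : (r ^ 2 - a * S ^ 2) * G = S - r * (x ^ 2 - a * y ^ 2) := by
      rw [← hN]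
      exact eG.symm
    linear_combination -h4
  refine ⟨G, D - a * G, x, y, B, ?_, ?_, ?_, ?_⟩
  · linear_combination -eD - a * G * hS
  · apply mul_left_cancel₀ hr0
    have h4 : (r ^ 2 - a * S ^ 2) * G = S - r * (x ^ 2 - a * y ^ 2) := by
      rw [← hN]
      exact eG.symm
    linear_combination h4 + S * eD
  · have h4 : (r ^ 2 - a * S ^ 2) * G = S - r * (x ^ 2 - a * y ^ 2) := by
      rw [← hN]
      exact eG.symm
    have h5 : (S * x) ^ 2 - (r * y) ^ 2 = B ^ 2 - r := by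
      linear_combination (S * x + r * y) * e4 + e5
    linear_combination r * h4 - a * h5 + r * hS
  · rintro ⟨hx, hy'⟩
    rw [hx, hy'] at e4
    apply one_ne_zero (α := R)
    rw [← e4]
    ring

end crt

end Pool.Agent.H85.HY
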