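import Pool.Agent.H85.HY.Forms

/-! # Smoothness -/

set_option autoImplicit false

namespace Pool.Agent.H85.HY

open MvPolynomial

section chain

variable {E : Type} [Field E]

/-- dehomogenisation -/
noncomputable def deh : MvPolynomial (Fin 2) E →ₐ[E] Polynomial E := aeval ![Polynomial.X, 1]

lemma deh_deriv (G : MvPolynomial (Fin 2) E) :
    Polynomial.derivative (deh G) = deh (pderiv 0 G) := by
  induction G using MvPolynomial.induction_on with
  | C a =>
    rw [pderiv_C, map_zero, ← algebraMap_eq, AlgHom.commutes]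
    exact Polynomial.derivative_C
  | add p q hp hq => rw [map_add, map_add, map_add, map_add, hp, hq]
  | mul_X p i hp =>
    rw [map_mul, Polynomial.derivative_mul, hp, pderiv_mul, map_add, map_mul, map_mul]
    congr 1
    congr 1
    fin_cases i
    · simp [deh]
    · simp [deh, pderiv_X]

lemma eval_deh (G : MvPolynomial (Fin 2) E) (ζ : E) :
    Polynomial.eval ζ (deh G) = eval ![ζ, 1] G := by
  induction G using MvPolynomial.induction_on with
  | C a =>
    rw [eval_C, ← algebraMap_eq, AlgHom.commutes]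
    exact Polynomial.eval_C
  | add p q hp hq => rw [map_add, map_add, Polynomial.eval_add, hp, hq]
  | mul_X p i hp =>
    rw [map_mul, map_mul, Polynomial.eval_mul, hp, eval_X]
    congr 1
    fin_cases i
    · simp [deh]
    · simp [deh]

end chain

section smooth

variable {E : Type} [Field E] [CharZero E]

/-- the polynomial `f g q²` -/
noncomputable def pp (k : ℕ) (a r G δ : E) : Polynomial E :=
  (Polynomial.C r * Polynomial.X ^ 2 - Polynomial.C a) *
    (Polynomial.C (a * G) * Polynomial.X ^ 2 + Polynomial.C δ) *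
    ((Polynomial.X + 1) ^ k) ^ 2

/-- the polynomial `h₀` -/
noncomputable def uu (k : ℕ) (x y : E) : Polynomial E :=
  Polynomial.C x * Polynomial.X ^ (k + 2) + Polynomial.C (2 ^ k * y - x) * Polynomial.X ^ (k + 1)

lemma deh_Q (k : ℕ) (a r G δ x y c : E) :
    deh (QO k a r G δ x y c) = Fc a (pp k a r G δ) (uu k x y) (1 - Polynomial.X) c := by
  have hC : ∀ e : E, deh (C e) = Polynomial.C e := by
    intro e
    rw [← algebraMap_eq, AlgHom.commutes]
    rfl
  have h0 : deh (X 0 : MvPolynomial (Fin 2) E) = Polynomial.X := by simp [deh]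
  have h1 : deh (X 1 : MvPolynomial (Fin 2) E) = 1 := by simp [deh]
  unfold QO fO gO qO hO Fc pp uu
  simp only [map_add, map_mul, map_sub, map_pow, hC, h0, h1, one_pow, mul_one, one_mul]

theorem finite_bad_c [IsAlgClosed E] (k : ℕ) {a r G δ x y n : E} (ha : a ≠ 0) (hr : r ≠ 0)
    (har : a ≠ r) (hdet : r * δ + a ^ 2 * G = 1) (hn : n ≠ 0) (hn1 : n = r * G + x ^ 2)
    (hn2 : n = (r - a) * (δ + a * G) + a * y ^ 2) :
    ∃ T : Set E, T.Finite ∧ ∀ c, c ∉ T → ∀ z : Fin 2 → E, z ≠ 0 →
      eval z (QO k a r G δ x y c) = 0 → ∃ i, eval z (pderiv i (QO k a r G δ x y c)) ≠ 0 := by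
  obtain ⟨z₀, hz₀⟩ := IsAlgClosed.exists_pow_nat_eq (a / r) two_pos
  have hz₀' : r * z₀ ^ 2 = a := by
    rw [hz₀]
    field_simp
  have hz0 : z₀ ≠ 0 := by
    rintro rfl
    apply ha
    rw [← hz₀']
    ring
  have hz1 : z₀ ^ 2 ≠ 1 := by
    intro h
    apply har
    rw [← hz₀', h, mul_one]
  have hg : a * (a * G * z₀ ^ 2 + δ) = z₀ ^ 2 := by
    linear_combination z₀ ^ 2 * hdet - δ * hz₀'
  have hg0 : a * G * z₀ ^ 2 + δ ≠ 0 := by
    intro h
    rw [h, mul_zero] at hg
    exact hz0 (pow_eq_zero_iff two_ne_zero |>.1 hg.symm)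
  have hzm : z₀ + 1 ≠ 0 := by
    intro h
    apply hz1
    have h1 : z₀ = -1 := by linear_combination h
    rw [h1]
    ring
  have hzp : 1 - z₀ ≠ 0 := by
    intro h
    apply hz1
    have h1 : z₀ = 1 := by linear_combination -h
    rw [h1]
    ring
  have hΨ : Psi a (pp k a r G δ) (uu k x y) (1 - Polynomial.X) ≠ 0 := by
    refine psi_ne ha (z := z₀) (e := 0) (p₁ := Polynomial.C r * (Polynomial.X + Polynomial.C z₀) *
      (Polynomial.C (a * G) * Polynomial.X ^ 2 + Polynomial.C δ) *
      ((Polynomial.X + 1) ^ k) ^ 2) ?_ ?_ ?_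
    · unfold pp
      have h1 : (Polynomial.C a : Polynomial E) = Polynomial.C r * Polynomial.C z₀ ^ 2 := by
        rw [← Polynomial.C_pow, ← Polynomial.C_mul, hz₀']
      rw [h1]
      ring
    · simp only [Polynomial.eval_mul, Polynomial.eval_add, Polynomial.eval_pow,
        Polynomial.eval_C, Polynomial.eval_X, Polynomial.eval_one]
      refine mul_ne_zero (mul_ne_zero (mul_ne_zero hr ?_) hg0)
        (pow_ne_zero _ (pow_ne_zero _ hzm))
      rw [← two_mul]
      exact mul_ne_zero two_ne_zero hz0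
    · simp only [Polynomial.eval_sub, Polynomial.eval_one, Polynomial.eval_X]
      exact hzp
  have hv : ∀ z, (1 - Polynomial.X : Polynomial E).eval z = 0 →
      (pp k a r G δ).eval z + a * (uu k x y).eval z ^ 2 ≠ 0 := by
    intro z hz
    have h1 : z = 1 := by
      simp only [Polynomial.eval_sub, Polynomial.eval_one, Polynomial.eval_X] at hz
      linear_combination -hz
    rw [h1]
    unfold pp uu
    simp only [Polynomial.eval_mul, Polynomial.eval_add, Polynomial.eval_sub, Polynomial.eval_pow,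
        Polynomial.eval_C, Polynomial.eval_X, Polynomial.eval_one, one_pow, mul_one]
    have h2 : (r - a) * (a * G + δ) * ((1 + 1) ^ k) ^ 2 + a * (x + (2 ^ k * y - x)) ^ 2 =
        (2 ^ k) ^ 2 * n := by
      rw [hn2]
      have h3 : (1 : E) + 1 = 2 := by norm_num
      rw [h3]
      ring
    rw [h2]
    exact mul_ne_zero (pow_ne_zero _ (pow_ne_zero _ two_ne_zero)) hn
  refine ⟨_, finite_bad ha hΨ hv, ?_⟩
  intro c hc z hz hQ
  by_contra hcon
  rw [not_exists] at hcon
  have hd : eval z (pderiv 0 (QO k a r G δ x y c)) = 0 := not_not.1 (hcon 0)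
  apply hc
  have hz10 : z 1 ≠ 0 := by
    intro h1
    have hz00 : z 0 ≠ 0 := by
      intro h0
      apply hz
      funext i
      fin_cases i
      · exact h0
      · exact h1
    have h2 : eval z (QO k a r G δ x y c) = eval₂ (RingHom.id E) z (QO k a r G δ x y c) := rfl
    rw [h2, val_Q, val_f, val_g, val_q, val_h, h1] at hQ
    simp only [RingHom.id_apply] at hQ
    have h3 : z 0 ^ (2 * k + 4) * (a * n) = 0 := by
      rw [← hQ, hn1]
      simp only [ne_eq, Nat.add_eq_zero_iff, OfNat.ofNat_ne_zero, and_false, not_false_eq_true,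
        zero_pow, one_ne_zero, mul_zero, sub_zero, add_zero, zero_mul]
      ring
    exact mul_ne_zero (pow_ne_zero _ hz00) (mul_ne_zero ha hn) h3
  have hzz : z = z 1 • ![z 0 / z 1, 1] := by
    funext i
    fin_cases i
    · change z 0 = z 1 * (z 0 / z 1)
      field_simp
    · change z 1 = z 1 * 1
      rw [mul_one]
  refine ⟨z 0 / z 1, ?_, ?_⟩
  · rw [← deh_Q, eval_deh]
    rw [hzz, eval_smul2 _ (QO_hom k a r G δ x y c)] at hQ
    exact (mul_eq_zero.1 hQ).resolve_left (pow_ne_zero _ hz10)
  · rw [← deh_Q, deh_deriv, eval_deh]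
    rw [hzz, eval_smul2 _ (QO_hom k a r G δ x y c).pderiv] at hd
    exact (mul_eq_zero.1 hd).resolve_left (pow_ne_zero _ hz10)

end smooth

end Pool.Agent.H85.HY
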