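import Pool.Agent.H85.BM.Pts

/-! # Local solubility -/

set_option autoImplicit false

namespace Pool.Agent.H85.HY

open NumberField IsDedekindDomain WithZero
open Pool.Agent.H85.BM

section sol

variable {L : Type} [Field L] [NumberField L] (w : HeightOneSpectrum (𝓞 L))

lemma unit_three (h2 : Valued.v (2 : w.adicCompletion L) = 1) (a c : w.adicCompletion L)
    (ha : Valued.v a = 1) (hc : Valued.v c = 1) :
    ∃ ρ : w.adicCompletion L, ρ ^ 2 = a ∨ ρ ^ 2 = c ∨ ρ ^ 2 = a * c := by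
  have hac : Valued.v (a * c) = 1 := by rw [map_mul, ha, hc, one_mul]
  rcases ff_prod (IsLocalRing.residue (OO w) (toO w a ha.le))
    (IsLocalRing.residue (OO w) (toO w c hc.le)) with h | h | h
  · obtain ⟨r, hr⟩ := lift_sq w h2 (toO w a ha.le) (by rw [toO_coe]; exact ha) h
    exact ⟨r, Or.inl (by rw [hr, toO_coe])⟩
  · obtain ⟨r, hr⟩ := lift_sq w h2 (toO w c hc.le) (by rw [toO_coe]; exact hc) h
    exact ⟨r, Or.inr (Or.inl (by rw [hr, toO_coe]))⟩
  · rw [← map_mul] at h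
    have hcoe : ((toO w a ha.le * toO w c hc.le : OO w) : w.adicCompletion L) = a * c := by
      change ((toO w a ha.le : OO w) : w.adicCompletion L) *
        ((toO w c hc.le : OO w) : w.adicCompletion L) = a * c
      rw [toO_coe, toO_coe]
    obtain ⟨r, hr⟩ := lift_sq w h2 (toO w a ha.le * toO w c hc.le)
      (by rw [hcoe]; exact hac) h
    exact ⟨r, Or.inr (Or.inr (by rw [hr, hcoe]))⟩

/-- one of `a, n, a n` is a square -/
theorem three (a n k t r S B : w.adicCompletion L) (hk : Valued.v k ≤ 1) (ht : Valued.v t ≤ 1)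
    (ha : a = 1 + 8 * k) (hn : n = 1 + a * t) (hN0 : r ^ 2 - a * S ^ 2 ≠ 0)
    (hnorm : n * (r ^ 2 - a * S ^ 2) = r ^ 2 - a * B ^ 2) :
    ∃ ρ : w.adicCompletion L, ρ ^ 2 = a ∨ ρ ^ 2 = n ∨ ρ ^ 2 = a * n := by
  rcases lt_or_eq_of_le (v_two_le w) with h2 | h2
  · obtain ⟨y, -, hy⟩ := quad w 1 (-(k * 2)) (map_one _) (by
      rw [Valuation.map_neg]
      exact v_mul_lt w hk h2)
    refine ⟨2 * y + 1, Or.inl ?_⟩
    rw [ha]
    linear_combination 4 * hy
  have h8 : Valued.v (8 : w.adicCompletion L) = 1 := by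
    have h3 : (8 : w.adicCompletion L) = 2 ^ 3 := by norm_num
    rw [h3, map_pow, h2, one_pow]
  have ha1 : Valued.v a ≤ 1 := by
    rw [ha]
    refine Valuation.map_add_le _ (map_one _).le ?_
    rw [map_mul, h8, one_mul]
    exact hk
  rcases lt_or_eq_of_le ha1 with ha2 | ha2
  · -- `n ≡ 1`
    obtain ⟨ρ, -, hρ⟩ := sqrt_unit w h2 n 1 (map_one _) (by
      have h3 : (1 : w.adicCompletion L) ^ 2 - n = -(t * a) := by
        rw [hn]
        ring
      rw [h3, Valuation.map_neg]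
      exact v_mul_lt w ht ha2)
    exact ⟨ρ, Or.inr (Or.inl hρ)⟩
  · have hnn : IsNorm a n := by
      refine IsNorm.of_mul hN0 ⟨r, S, rfl⟩ ⟨r, B, ?_⟩
      rw [← hnorm]
      ring
    obtain ⟨s, t', hst⟩ := hnn
    by_cases ht' : t' = 0
    · refine ⟨s, Or.inr (Or.inl ?_)⟩
      rw [← hst, ht']
      ring
    set u := s / t' with hu
    have hnu : n = t' ^ 2 * (u ^ 2 - a) := by
      rw [← hst, hu]
      field_simp
    have fin : ∀ c : w.adicCompletion L, Valued.v c = 1 → n = t' ^ 2 * c →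
        ∃ ρ : w.adicCompletion L, ρ ^ 2 = a ∨ ρ ^ 2 = n ∨ ρ ^ 2 = a * n := by
      intro c hc hnc
      obtain ⟨ρ, h | h | h⟩ := unit_three w h2 a c ha2 hc
      · exact ⟨ρ, Or.inl h⟩
      · exact ⟨t' * ρ, Or.inr (Or.inl (by rw [mul_pow, h, hnc]))⟩
      · exact ⟨t' * ρ, Or.inr (Or.inr (by rw [mul_pow, h, hnc]; ring))⟩
    rcases lt_trichotomy (Valued.v u) 1 with h | h | h
    · refine fin _ ?_ hnu
      have h3 : u ^ 2 - a = u * u + -a := by ring
      rw [h3]
      refine v_add_one w ?_ (by rw [Valuation.map_neg]; exact ha2)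
      exact v_mul_lt w h.le h
    · have h3 : Valued.v (u ^ 2 - a) ≤ 1 := by
        rw [sub_eq_add_neg]
        refine Valuation.map_add_le _ ?_ (by rw [Valuation.map_neg]; exact ha1)
        rw [map_pow, h, one_pow]
      rcases lt_or_eq_of_le h3 with h4 | h4
      · obtain ⟨ρ, -, hρ⟩ := sqrt_unit w h2 a u h h4
        exact ⟨ρ, Or.inl hρ⟩
      · exact fin _ h4 hnu
    · have hu0 : u ≠ 0 := by
        intro h0
        rw [h0, map_zero] at h
        exact absurd h (not_lt.2 zero_le_one)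
      have h3 : Valued.v u⁻¹ < 1 := by
        rw [map_inv₀]
        exact inv_lt_one_of_one_lt₀ h
      obtain ⟨ρ, -, hρ⟩ := sqrt_unit w h2 (1 - a * u⁻¹ ^ 2) 1 (map_one _) (by
        have h4 : (1 : w.adicCompletion L) ^ 2 - (1 - a * u⁻¹ ^ 2) = (a * u⁻¹) * u⁻¹ := by ring
        rw [h4]
        refine v_mul_lt w ?_ h3
        rw [map_mul, ha2, one_mul]
        exact h3.le)
      refine ⟨t' * u * ρ, Or.inr (Or.inl ?_)⟩
      rw [mul_pow, hρ, hnu]
      field_simp

end sol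

end Pool.Agent.H85.HY
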