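import Pool.Agent.H85.HY.Main
import Pool.Agent.H85.HY.Smo
import Pool.Agent.H85.HY.Sol
import Pool.Agent.H85.HY.Con1
import Pool.Agent.H85.HY.Con2

/-! # The curves over an arbitrary number field -/

set_option autoImplicit false

namespace Pool.Agent.H85.HY

open NumberField IsDedekindDomain WithZero MvPolynomial
open Pool.Agent.H85.BM (IsNorm isNorm_of_sq)
open Pool.Agent.H85.CY (phi val_phi)

section cnu

variable {K : Type} [Field K] [CharZero K]

/-- the parametrisation of the values of `h` at `(0, 1)` -/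
noncomputable def cν (δ ν : K) : K := (δ / ν + ν) / 2

lemma cν_fib (δ b : K) : {ν | cν δ ν = b}.Finite := by
  classical
  have h1 : (Polynomial.X ^ 2 - Polynomial.C (2 * b) * Polynomial.X + Polynomial.C δ :
      Polynomial K) ≠ 0 := by
    intro h
    have h2 := congrArg (fun q => Polynomial.coeff q 2) h
    simp at h2
  refine Set.Finite.subset (((Polynomial.rootSet_finite (Polynomial.X ^ 2 -
    Polynomial.C (2 * b) * Polynomial.X + Polynomial.C δ) K)).union (Set.finite_singleton 0)) ?_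
  intro ν hν
  rw [Set.mem_ofPred_eq] at hν
  by_cases h0 : ν = 0
  · exact Or.inr h0
  · left
    rw [Polynomial.mem_rootSet_of_ne h1]
    simp only [map_add, map_sub, map_mul, map_pow, Polynomial.aeval_X, Polynomial.aeval_C,
      Algebra.algebraMap_self, RingHom.id_apply]
    rw [← hν, cν]
    field_simp
    ring

lemma cν_pre (δ : K) {T : Set K} (hT : T.Finite) : {ν | cν δ ν ∈ T}.Finite :=
  hT.preimage' (f := cν δ) fun b _ => cν_fib δ b

end cnu

/-- the construction over the ring of integers -/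
structure Data (K : Type) [Field K] [NumberField K] where
  /-- parameter -/
  a : 𝓞 K
  /-- parameter -/
  k' : 𝓞 K
  /-- parameter -/
  r : 𝓞 K
  /-- parameter -/
  G : 𝓞 K
  /-- parameter -/
  δ : 𝓞 K
  /-- parameter -/
  x : 𝓞 K
  /-- parameter -/
  y : 𝓞 K
  /-- parameter -/
  B : 𝓞 K
  ha : a = 1 + 8 * k'
  hpos : ∀ σ : K →+* ℝ, 0 < σ (algebraMap (𝓞 K) K a)
  hra : IsCoprime r a
  hbad : Odd (Bad a r).ncard
  hdet : r * δ + a ^ 2 * G = 1
  hn : r * G + x ^ 2 = (r - a) * (δ + a * G) + a * y ^ 2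
  hnorm : (r * G + x ^ 2) * (r ^ 2 - a * (r - a) ^ 2) = r ^ 2 - a * B ^ 2
  ha0 : a ≠ 0
  hr0 : r ≠ 0
  har : a ≠ r
  hN0 : r ^ 2 - a * (r - a) ^ 2 ≠ 0
  hn0 : r * G + x ^ 2 ≠ 0

theorem exists_data (K : Type) [Field K] [NumberField K] : Nonempty (Data K) := by
  obtain ⟨v, a, B₀, k, b, r, ha, hB₀, hr, hpos, hva, hra, hbad⟩ := con1 K
  have hrv : v.intValuation r = 1 := by
    by_contra hcon
    have h1 : v.intValuation r < 1 := lt_of_le_of_ne (v.intValuation_le_one _) hcon
    rw [HeightOneSpectrum.intValuation_lt_one_iff_mem] at h1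
    have h2 : v ∈ Bad a r := by rw [hbad]; rfl
    apply h2.2
    rw [Ideal.Quotient.eq_zero_iff_mem.2 h1]
    exact IsSquare.zero
  have hr0 : r ≠ 0 := by
    rintro h
    rw [h, map_zero] at hrv
    exact zero_ne_one hrv
  have ha0 : a ≠ 0 := by
    rintro h
    rw [h, map_zero] at hva
    exact exp_ne_zero hva.symm
  have nosq : ∀ X : 𝓞 K, r ^ 2 - a * X ^ 2 ≠ 0 := by
    intro X h
    have h1 : r ^ 2 = a * X ^ 2 := by linear_combination h
    have h2 := congrArg v.intValuation h1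
    rw [map_pow, map_mul, hrv, hva, one_pow] at h2
    have h3 : exp (-1 : ℤ) * v.intValuation (X ^ 2) < 1 := by
      calc exp (-1 : ℤ) * v.intValuation (X ^ 2) ≤ exp (-1 : ℤ) * 1 :=
            mul_le_mul_right (v.intValuation_le_one _) _
        _ < 1 := by
          rw [mul_one, ← exp_zero, exp_lt_exp]
          norm_num
    rw [← h2] at h3
    exact lt_irrefl _ h3
  obtain ⟨G, δ, x, y, B, h1, h2, h3, -⟩ := con2 a B₀ k b r ha hB₀ hr hra hr0
  refine ⟨⟨a, k, r, G, δ, x, y, B, ha, hpos, hra, ?_, h1, h2, h3, ha0, hr0, ?_, nosq _, ?_⟩⟩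
  · rw [hbad, Set.ncard_singleton]
    exact odd_one
  · intro h
    rw [← h, hva] at hrv
    rw [← exp_zero, exp_inj] at hrv
    norm_num at hrv
  · intro h
    apply nosq B
    rw [← h3, h, zero_mul]

section curves

variable {K : Type} [Field K] [NumberField K] (D : Data K)

/-- the number `n` -/
def Data.n : 𝓞 K := D.r * D.G + D.x ^ 2

/-- the curve -/
noncomputable def Data.Q (k : ℕ) (c : K) : MvPolynomial (Fin 2) K :=
  QO k (D.a : K) (D.r : K) (D.G : K) (D.δ : K) (D.x : K) (D.y : K) c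

/-- one of `a, n, a n` is a square at all the finite places -/
lemma Data.three (w : HeightOneSpectrum (𝓞 K)) :
    ∃ ρ : w.adicCompletion K, ρ ^ 2 = phi K w D.a ∨ ρ ^ 2 = phi K w D.n ∨
      ρ ^ 2 = phi K w D.a * phi K w D.n := by
  have hinj : Function.Injective (phi K w : 𝓞 K →+* w.adicCompletion K) := by
    rw [RingHom.coe_comp]
    exact (algebraMap K (w.adicCompletion K)).injective.comp
      (FaithfulSMul.algebraMap_injective (𝓞 K) K)
  refine Pool.Agent.H85.HY.three w (phi K w D.a) (phi K w D.n) (phi K w D.k')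
    (phi K w (D.r * D.G - D.δ - 2 * D.a * D.G + D.y ^ 2)) (phi K w D.r) (phi K w (D.r - D.a))
    (phi K w D.B) (Pool.Agent.H85.BM.phi_le w _) (Pool.Agent.H85.BM.phi_le w _) ?_ ?_ ?_ ?_
  · rw [D.ha, map_add, map_one, map_mul, map_ofNat]
  · have h : D.n = 1 + D.a * (D.r * D.G - D.δ - 2 * D.a * D.G + D.y ^ 2) := by
      rw [Data.n, D.hn]
      linear_combination D.hdet
    rw [h, map_add, map_one, map_mul]
  · rw [← map_pow, ← map_pow, ← map_mul, ← map_sub]
    intro h
    apply D.hN0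
    apply hinj
    rw [h, map_zero]
  · rw [← map_pow, ← map_pow, ← map_mul, ← map_sub, ← map_mul, ← map_pow, ← map_mul, ← map_sub]
    rw [Data.n, D.hnorm]

/-- the local points -/
lemma Data.point (k : ℕ) {E : Type} [Field E] [CharZero E] (φ : K →+* E) {ν : K} (hν : ν ≠ 0)
    (ρ : E) (hρ : ρ ^ 2 = φ D.a ∨ ρ ^ 2 = φ D.n ∨ ρ ^ 2 = φ D.a * φ D.n) :
    ∃ P : Fin 3 → E, ![P 0, P 1] ≠ 0 ∧
      P 2 ^ 2 = eval₂ φ ![P 0, P 1] (D.Q k (cν (D.δ : K) ν)) := by
  have hn1 : (D.n : K) = D.r * D.G + D.x ^ 2 := by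
    rw [Data.n]
    push_cast
    ring
  have hn2 : (D.n : K) = (D.r - D.a) * (D.δ + D.a * D.G) + D.a * D.y ^ 2 := by
    rw [Data.n, D.hn]
    push_cast
    ring
  obtain ⟨s, t, z, hst, hz⟩ := point_exists (k := k) (a := φ D.a) (r := φ D.r) (G := φ D.G)
    (δ := φ D.δ) (x := φ D.x) (y := φ D.y) (c := φ (cν (D.δ : K) ν)) (ν := φ ν) (n := φ D.n)
    (ρ := ρ) two_ne_zero ((map_ne_zero φ).2 hν) (by
      rw [cν, map_div₀, map_add, map_div₀, map_ofNat]) (by
      rw [hn1, map_add, map_mul, map_pow]) (by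
      rw [hn2]
      simp only [map_add, map_sub, map_mul, map_pow]) hρ
  refine ⟨![s, t, z], ?_, ?_⟩
  · intro h
    apply hst
    exact ⟨congrFun h 0, congrFun h 1⟩
  · change z ^ 2 = eval₂ φ ![s, t] _
    rw [Data.Q, val_Q, val_f, val_g, val_q, val_h]
    exact hz

/-- the points give norms -/
lemma Data.norm (k : ℕ) {E : Type} [Field E] [CharZero E] (φ : K →+* E) {c : K}
    (hc : hm k (D.x : K) (D.y : K) c ≠ 0) (P : Fin 3 → E) (hP0 : ![P 0, P 1] ≠ 0)
    (hP : P 2 ^ 2 = eval₂ φ ![P 0, P 1] (D.Q k c)) :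
    IsNorm (φ D.a) (eval₂ φ ![P 0, P 1] (fO (D.a : K) (D.r : K)) *
      eval₂ φ ![P 0, P 1] (gO (D.a : K) (D.G : K) (D.δ : K))) := by
  have ha0 : φ D.a ≠ 0 := by
    rw [Ne, map_eq_zero]
    intro h
    apply D.ha0
    apply RingOfIntegers.coe_injective
    rw [map_zero]
    exact h
  rw [Data.Q, val_Q, val_q, val_h] at hP
  have hhm : hm k (φ D.x) (φ D.y) (φ c) = φ (hm k (D.x : K) (D.y : K) c) := by
    unfold hm
    simp only [map_add, map_sub, map_mul, map_pow, map_neg, map_one, map_ofNat]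
  refine point_norm (k := k) (x := φ D.x) (y := φ D.y) (c := φ c) (s := P 0) (t := P 1)
    (z := P 2) two_ne_zero ha0 ?_ ?_ hP
  · rintro ⟨h1, h2⟩
    apply hP0
    funext i
    fin_cases i
    · exact h1
    · exact h2
  · rw [hhm, Ne, map_eq_zero]
    exact hc

/-- the sum of the invariants -/
theorem Data.main {L : Type} [Field L] [NumberField L] [Algebra K L]
    (hL : Odd (Module.finrank K L))
    (z : (w : HeightOneSpectrum (𝓞 L)) → Fin 2 → w.adicCompletion L) (hz : ∀ w, z w ≠ 0)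
    (h : ∀ w, IsNorm (phi K w D.a)
      (eval (z w) (map (phi K w) (fO D.a D.r)) * eval (z w) (map (phi K w) (gO D.a D.G D.δ)))) :
    {w | ¬ Tr (phi K w D.a) (eval (z w) (map (phi K w) (fO D.a D.r)))
      (eval (z w) (map (phi K w) (gO D.a D.G D.δ)))}.Finite ∧
    Odd {w | ¬ Tr (phi K w D.a) (eval (z w) (map (phi K w) (fO D.a D.r)))
      (eval (z w) (map (phi K w) (gO D.a D.G D.δ)))}.ncard := by
  have ha : D.a = 1 ^ 2 + 4 * (2 * D.k') := by
    rw [D.ha]
    ring
  have key := Pool.Agent.H85.HY.main K 1 (2 * D.k') D.r isCoprime_one_left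
  rw [← ha] at key
  exact key D.hra D.hbad (i := 1) (j := 1) (fO D.a D.r) (gO D.a D.G D.δ) (X 0) (C D.δ * X 1)
    (fO_hom _ _) (gO_hom _ _ _) (unitRes _ _ _ _ D.hdet) (fO_mod _ _) (gO_mod _ _ _ _ D.hdet)
    L hL z hz h

/-- smoothness for almost all `c` -/
theorem Data.smooth (k : ℕ) : ∃ T : Set K, T.Finite ∧ ∀ c, c ∉ T →
    hm k (D.x : K) (D.y : K) c ≠ 0 ∧
    ∀ z : Fin 2 → AlgebraicClosure K, z ≠ 0 → aeval z (D.Q k c) = 0 →
      ∃ i, aeval z (pderiv i (D.Q k c)) ≠ 0 := by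
  set ι : 𝓞 K →+* AlgebraicClosure K := (algebraMap K (AlgebraicClosure K)).comp
    (algebraMap (𝓞 K) K) with hι
  have hinj : Function.Injective ι := by
    rw [hι, RingHom.coe_comp]
    exact (algebraMap K (AlgebraicClosure K)).injective.comp
      (FaithfulSMul.algebraMap_injective (𝓞 K) K)
  have hne : ∀ {x y : 𝓞 K}, x ≠ y → ι x ≠ ι y := fun h h' => h (hinj h')
  have hz : ι 0 = 0 := map_zero ι
  obtain ⟨T, hT, h⟩ := finite_bad_c (E := AlgebraicClosure K) k (a := ι D.a) (r := ι D.r)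
    (G := ι D.G) (δ := ι D.δ) (x := ι D.x) (y := ι D.y) (n := ι D.n)
    (by rw [← hz]; exact hne D.ha0) (by rw [← hz]; exact hne D.hr0) (hne D.har)
    (by rw [← map_pow, ← map_mul, ← map_mul, ← map_add, D.hdet, map_one])
    (by rw [← hz]; exact hne D.hn0)
    (by rw [← map_pow, ← map_mul, ← map_add]; rfl)
    (by
      rw [← map_pow, ← map_mul, ← map_sub, ← map_add, ← map_mul, ← map_mul, ← map_add, ← D.hn]
      rfl)
  have hcc : (-1 : K) ^ (k + 1) * (-2) ≠ 0 :=
    mul_ne_zero (pow_ne_zero _ (neg_ne_zero.2 one_ne_zero)) (neg_ne_zero.2 two_ne_zero)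
  refine ⟨(algebraMap K (AlgebraicClosure K)) ⁻¹' T ∪ {c | hm k (D.x : K) (D.y : K) c = 0}, ?_, ?_⟩
  · refine (hT.preimage (algebraMap K (AlgebraicClosure K)).injective.injOn).union ?_
    refine Set.Finite.subset (Set.finite_singleton
      (-((D.x : K) - (2 ^ k * (D.y : K) - (D.x : K))) / ((-1) ^ (k + 1) * (-2)))) ?_
    intro c hc
    rw [Set.mem_ofPred_eq, hm] at hc
    rw [Set.mem_singleton_iff, eq_div_iff hcc]
    linear_combination hc
  · intro c hc
    rw [Set.mem_union, not_or] at hc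
    refine ⟨hc.2, ?_⟩
    intro z hz hQ
    have hmap : map (algebraMap K (AlgebraicClosure K)) (D.Q k c) =
        QO k (ι D.a) (ι D.r) (ι D.G) (ι D.δ) (ι D.x) (ι D.y) (algebraMap K _ c) := by
      unfold Data.Q QO fO gO qO hO
      simp only [map_add, map_mul, map_sub, map_pow, map_C, map_X, map_ofNat]
      rfl
    rw [aeval_def, ← eval_map, hmap] at hQ
    obtain ⟨i, hi⟩ := h _ hc.1 z hz hQ
    refine ⟨i, ?_⟩
    rw [aeval_def, ← eval_map, ← pderiv_map, hmap]
    exact hi

/-- infinitely many parameters -/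
theorem Data.infinite (k : ℕ) (T : Set K) (hT : T.Finite) (S : Set (MvPolynomial (Fin 2) K))
    (hS : ∀ ν : K, ν ≠ 0 → cν (D.δ : K) ν ∉ T → D.Q k (cν (D.δ : K) ν) ∈ S) : S.Infinite := by
  intro hfin
  have ha0 : (D.a : K) ≠ 0 := by
    intro h
    apply D.ha0
    apply RingOfIntegers.coe_injective
    rw [map_zero]
    exact h
  have h1 : {ν : K | D.Q k (cν (D.δ : K) ν) ∈ S}.Finite := by
    have h2 : {c : K | D.Q k c ∈ S}.Finite := by
      refine hfin.preimage' (f := fun c => D.Q k c) ?_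
      intro b _
      rcases Set.eq_empty_or_nonempty ((fun c => D.Q k c) ⁻¹' {b}) with h3 | ⟨c₀, hc₀⟩
      · rw [h3]
        exact Set.finite_empty
      · refine Set.Finite.subset ((Set.finite_singleton c₀).union (Set.finite_singleton (-c₀))) ?_
        intro c hc
        rw [Set.mem_preimage, Set.mem_singleton_iff] at hc hc₀
        have h4 : eval₂ (RingHom.id K) ![0, 1] (D.Q k c) =
            eval₂ (RingHom.id K) ![0, 1] (D.Q k c₀) := by rw [hc, hc₀]
        rw [Data.Q, Data.Q, val_Q, val_Q, val_h, val_h] at h4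
        simp only [RingHom.id_apply, Matrix.cons_val_zero, Matrix.cons_val_one, ne_eq,
          Nat.add_eq_zero_iff, OfNat.ofNat_ne_zero, and_false, not_false_eq_true, zero_pow,
          one_ne_zero, mul_zero, one_pow, zero_add, sub_zero, mul_one,
          add_right_inj] at h4
        have h5 : c ^ 2 = c₀ ^ 2 := mul_left_cancel₀ ha0 h4
        rcases sq_eq_sq_iff_eq_or_eq_neg.1 h5 with h6 | h6
        · exact Or.inl h6
        · exact Or.inr h6
    exact cν_pre (D.δ : K) h2
  have h2 : (Set.univ : Set K).Finite := by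
    refine ((h1.union (cν_pre (D.δ : K) hT)).union (Set.finite_singleton 0)).subset ?_
    intro ν _
    by_cases h0 : ν = 0
    · exact Or.inr h0
    · left
      by_cases h3 : cν (D.δ : K) ν ∈ T
      · exact Or.inr h3
      · exact Or.inl (hS ν h0 h3)
  exact Set.infinite_univ h2

end curves

end Pool.Agent.H85.HY
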