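import Mathlib

/-! # Almost all curves of a pencil are smooth -/

set_option autoImplicit false
set_option linter.unusedSectionVars false

namespace Pool.Agent.H85.HY

open Polynomial

section sep

variable {E : Type} [Field E] [CharZero E]

lemma pow_cmp (z : E) (A B : E[X]) (i j : ℕ) (h : (X - C z) ^ i * A = (X - C z) ^ j * B)
    (hA : A.eval z ≠ 0) (hB : B.eval z ≠ 0) : i = j := by
  have aux : ∀ (A B : E[X]) (i j : ℕ), (X - C z) ^ i * A = (X - C z) ^ j * B →
      A.eval z ≠ 0 → i < j → False := by
    intro A B i j h hA hij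
    obtain ⟨l, rfl⟩ := Nat.exists_eq_add_of_lt hij
    have h1 : (X - C z) ^ i * A = (X - C z) ^ i * ((X - C z) ^ (l + 1) * B) := by
      rw [h]
      ring
    have h2 : A = (X - C z) ^ (l + 1) * B :=
      mul_left_cancel₀ (pow_ne_zero _ (X_sub_C_ne_zero z)) h1
    apply hA
    rw [h2]
    simp
  rcases lt_trichotomy i j with h1 | h1 | h1
  · exact (aux A B i j h hA h1).elim
  · exact h1
  · exact (aux B A j i h.symm hB h1).elim

/-- the polynomial whose roots contain all the double roots -/
noncomputable def Psi (a : E) (p u v : E[X]) : E[X] :=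
  (derivative p * v - 2 * p * derivative v) ^ 2 +
    4 * C a * p * (derivative u * v - u * derivative v) ^ 2

lemma psi_ne {a : E} (ha : a ≠ 0) {p u v p₁ : E[X]} {z : E} {e : ℕ}
    (hp : p = (X - C z) ^ (2 * e + 1) * p₁) (hp₁ : p₁.eval z ≠ 0) (hv : v.eval z ≠ 0) :
    Psi a p u v ≠ 0 := by
  intro h0
  set Q₁ : E[X] := C (2 * (e : E) + 1) * p₁ * v +
    (X - C z) * (derivative p₁ * v - 2 * p₁ * derivative v) with hQ₁
  have hQ : derivative p * v - 2 * p * derivative v = (X - C z) ^ (2 * e) * Q₁ := by
    rw [hp, hQ₁, derivative_mul, derivative_X_sub_C_pow]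
    simp only [Nat.cast_add, Nat.cast_mul, Nat.cast_ofNat, Nat.cast_one, add_tsub_cancel_right,
      map_add, map_mul, map_ofNat, map_one, map_natCast]
    ring
  have hQ₁z : Q₁.eval z ≠ 0 := by
    rw [hQ₁]
    simp only [eval_add, eval_mul, eval_sub, eval_X, eval_C, sub_self, zero_mul, add_zero]
    refine mul_ne_zero (mul_ne_zero ?_ hp₁) hv
    have h1 : (2 * (e : E) + 1) = ((2 * e + 1 : ℕ) : E) := by push_cast; ring
    rw [h1, Nat.cast_ne_zero]
    omega
  set M : E[X] := derivative u * v - u * derivative v with hM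
  unfold Psi at h0
  rw [hQ, ← hM, hp] at h0
  by_cases hM0 : M = 0
  · rw [hM0] at h0
    have h1 : (X - C z) ^ (2 * e) * Q₁ = 0 := by
      have h2 : ((X - C z) ^ (2 * e) * Q₁) ^ 2 = 0 := by
        rw [← h0]
        ring
      exact pow_eq_zero_iff two_ne_zero |>.1 h2
    rcases mul_eq_zero.1 h1 with h2 | h2
    · exact pow_ne_zero _ (X_sub_C_ne_zero z) h2
    · rw [h2, eval_zero] at hQ₁z
      exact hQ₁z rfl
  · obtain ⟨M₁, hM₁, hM₁z⟩ : ∃ M₁ : E[X], M = (X - C z) ^ (rootMultiplicity z M) * M₁ ∧
        M₁.eval z ≠ 0 := by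
      obtain ⟨M₁, h1, h2⟩ := exists_eq_pow_rootMultiplicity_mul_and_not_dvd M hM0 z
      refine ⟨M₁, h1, ?_⟩
      intro h3
      exact h2 (dvd_iff_isRoot.2 h3)
    have h1 := pow_cmp z (Q₁ ^ 2) (-(4 * C a * p₁ * M₁ ^ 2)) (4 * e)
      (2 * e + 1 + 2 * rootMultiplicity z M) (by
        rw [hM₁] at h0
        generalize rootMultiplicity z ((X - C z) ^ (rootMultiplicity z M) * M₁) = l' at *
        generalize rootMultiplicity z M = l at *
        have h3 : (X - C z) ^ (4 * e) * Q₁ ^ 2 = ((X - C z) ^ (2 * e) * Q₁) ^ 2 := by ring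
        rw [h3]
        linear_combination h0) (by
        rw [eval_pow]
        exact pow_ne_zero _ hQ₁z) (by
        simp only [eval_neg, eval_mul, eval_pow, eval_C, eval_ofNat, neg_ne_zero]
        exact mul_ne_zero (mul_ne_zero (mul_ne_zero (by norm_num) ha) hp₁)
          (pow_ne_zero _ hM₁z))
    omega

/-- the curves of the pencil -/
noncomputable def Fc (a : E) (p u v : E[X]) (c : E) : E[X] := p + C a * (u + C c * v) ^ 2

theorem finite_bad {a : E} (ha : a ≠ 0) {p u v : E[X]} (hΨ : Psi a p u v ≠ 0)
    (hv : ∀ z, v.eval z = 0 → p.eval z + a * u.eval z ^ 2 ≠ 0) :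
    {c : E | ∃ z, (Fc a p u v c).eval z = 0 ∧ (derivative (Fc a p u v c)).eval z = 0}.Finite := by
  have hfin : (⋃ z ∈ (Psi a p u v).rootSet E,
      (fun W => (W - u.eval z) / v.eval z) '' {W : E | a * W ^ 2 + p.eval z = 0}).Finite := by
    refine Set.Finite.biUnion (rootSet_finite _ _) ?_
    intro z _
    apply Set.Finite.image
    have h1 : (C a * X ^ 2 + C (p.eval z) : E[X]) ≠ 0 := by
      intro h
      have h2 := congrArg (fun q => coeff q 2) h
      simp only [coeff_add, coeff_C_mul, coeff_X_pow, coeff_C, coeff_zero] at h2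
      norm_num at h2
      exact ha h2
    refine Set.Finite.subset (rootSet_finite (C a * X ^ 2 + C (p.eval z)) E) ?_
    intro W hW
    rw [mem_rootSet_of_ne h1]
    simp only [Set.mem_ofPred_eq] at hW
    simpa using hW
  refine hfin.subset ?_
  rintro c ⟨z, h1, h2⟩
  unfold Fc at h1 h2
  simp only [derivative_add, derivative_mul, derivative_pow, derivative_C, eval_add, eval_mul,
    eval_pow, eval_C, zero_mul, zero_add] at h1 h2
  norm_num at h2
  have hvz : v.eval z ≠ 0 := by
    intro h3
    apply hv z h3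
    rw [h3] at h1
    linear_combination h1
  set W : E := u.eval z + c * v.eval z with hW
  have hc : c = (W - u.eval z) / v.eval z := by
    rw [hW]
    field_simp
    ring
  refine Set.mem_biUnion (x := z) ?_ ⟨W, ?_, hc.symm⟩
  · rw [mem_rootSet_of_ne hΨ]
    unfold Psi
    simp only [coe_aeval_eq_eval, eval_add, eval_mul, eval_sub, eval_pow, eval_C, eval_ofNat]
    have h3 : eval z (derivative p) * eval z v - 2 * eval z p * eval z (derivative v) +
        2 * a * W * (eval z (derivative u) * eval z v - eval z u * eval z (derivative v)) = 0 := by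
      have h4 : c * v.eval z = W - u.eval z := by rw [hW]; ring
      linear_combination (eval z v) * h2 - 2 * eval z (derivative v) * h1 +
        (2 * a * W * eval z (derivative v)) * h4 * (-1)
    linear_combination (eval z (derivative p) * eval z v - 2 * eval z p * eval z (derivative v) -
        2 * a * W * (eval z (derivative u) * eval z v - eval z u * eval z (derivative v))) * h3 +
      4 * a * (eval z (derivative u) * eval z v - eval z u * eval z (derivative v)) ^ 2 * h1
  · rw [Set.mem_ofPred_eq]
    linear_combination h1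

end sep

end Pool.Agent.H85.HY
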