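import Pool.Agent.H85.HY.Loc
import Pool.Agent.H85.HY.Sep

/-! # The forms and the curves -/

set_option autoImplicit false

namespace Pool.Agent.H85.HY

open MvPolynomial
open Pool.Agent.H85.BM (IsNorm isNorm_of_sq)

section forms

variable {R : Type} [CommRing R]

/-- the form `r s² - a t²` -/
noncomputable def fO (a r : R) : MvPolynomial (Fin 2) R := C r * X 0 ^ 2 - C a * X 1 ^ 2

/-- the form `a G s² + δ t²` -/
noncomputable def gO (a G δ : R) : MvPolynomial (Fin 2) R := C (a * G) * X 0 ^ 2 + C δ * X 1 ^ 2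

/-- the form `(s + t)ᵏ` -/
noncomputable def qO (R : Type) [CommRing R] (k : ℕ) : MvPolynomial (Fin 2) R := (X 0 + X 1) ^ k

/-- the forms `h` -/
noncomputable def hO (k : ℕ) (x y c : R) : MvPolynomial (Fin 2) R :=
  C x * X 0 ^ (k + 2) + C (2 ^ k * y - x) * (X 0 ^ (k + 1) * X 1) +
    C c * (X 1 ^ (k + 1) * (X 1 - X 0))

/-- the equation of the curve -/
noncomputable def QO (k : ℕ) (a r G δ x y c : R) : MvPolynomial (Fin 2) R :=
  fO a r * gO a G δ * qO R k ^ 2 + C a * hO k x y c ^ 2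

lemma fO_hom (a r : R) : (fO a r).IsHomogeneous 2 :=
  ((isHomogeneous_X_pow 0 2).C_mul r).sub ((isHomogeneous_X_pow 1 2).C_mul a)

lemma gO_hom (a G δ : R) : (gO a G δ).IsHomogeneous 2 :=
  ((isHomogeneous_X_pow 0 2).C_mul _).add ((isHomogeneous_X_pow 1 2).C_mul δ)

lemma qO_hom (k : ℕ) : (qO R k).IsHomogeneous k := by
  have h := ((isHomogeneous_X R (0 : Fin 2)).add (isHomogeneous_X R 1)).pow k
  rw [one_mul] at h
  exact h

lemma hO_hom (k : ℕ) (x y c : R) : (hO k x y c).IsHomogeneous (k + 2) := by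
  refine (((isHomogeneous_X_pow 0 (k + 2)).C_mul x).add
    (((isHomogeneous_X_pow 0 (k + 1)).mul (isHomogeneous_X R 1)).C_mul _)).add
    ((((isHomogeneous_X_pow 1 (k + 1)).mul
      ((isHomogeneous_X R 1).sub (isHomogeneous_X R 0)))).C_mul c)

lemma QO_hom (k : ℕ) (a r G δ x y c : R) : (QO k a r G δ x y c).IsHomogeneous (2 * k + 4) := by
  unfold QO
  refine IsHomogeneous.add ?_ ?_
  · have h := ((fO_hom a r).mul (gO_hom a G δ)).mul ((qO_hom (R := R) k).pow 2)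
    have e : 2 + 2 + k * 2 = 2 * k + 4 := by ring
    rw [e] at h
    exact h
  · have h := ((hO_hom k x y c).pow 2).C_mul a
    have e : (k + 2) * 2 = 2 * k + 4 := by ring
    rw [e] at h
    exact h

lemma unitRes (a r G δ : R) (h : r * δ + a ^ 2 * G = 1) : UnitRes (fO a r) (gO a G δ) := by
  refine ⟨2, ?_⟩
  have hC : C r * C δ + C a ^ 2 * C G = (1 : MvPolynomial (Fin 2) R) := by
    rw [← map_mul, ← map_pow, ← map_mul, ← map_add, h, map_one]
  intro i
  fin_cases i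
  · refine ⟨C δ, C a, ?_⟩
    unfold fO gO
    rw [map_mul]
    change _ = X 0 ^ 2
    linear_combination X 0 ^ 2 * hC
  · refine ⟨-(C a * C G), C r, ?_⟩
    unfold fO gO
    rw [map_mul]
    change _ = X 1 ^ 2
    linear_combination X 1 ^ 2 * hC

lemma fO_mod (a r : R) : C a ∣ fO a r - C r * X 0 ^ 2 := ⟨-X 1 ^ 2, by unfold fO; ring⟩

lemma gO_mod (a r G δ : R) (h : r * δ + a ^ 2 * G = 1) :
    C a ∣ gO a G δ - C r * (C δ * X 1) ^ 2 := by
  have hC : C r * C δ + C a ^ 2 * C G = (1 : MvPolynomial (Fin 2) R) := by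
    rw [← map_mul, ← map_pow, ← map_mul, ← map_add, h, map_one]
  refine ⟨C G * X 0 ^ 2 + C a * C G * C δ * X 1 ^ 2, ?_⟩
  unfold gO
  rw [map_mul]
  linear_combination -(C δ * X 1 ^ 2) * hC

section val

variable {E : Type} [Field E] (φ : R →+* E) (z : Fin 2 → E)

lemma val_f (a r : R) : eval₂ φ z (fO a r) = φ r * z 0 ^ 2 - φ a * z 1 ^ 2 := by
  simp [fO]

lemma val_g (a G δ : R) : eval₂ φ z (gO a G δ) = φ a * φ G * z 0 ^ 2 + φ δ * z 1 ^ 2 := by
  simp [gO]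

lemma val_q (k : ℕ) : eval₂ φ z (qO R k) = (z 0 + z 1) ^ k := by
  simp [qO, eval₂_pow]

lemma val_h (k : ℕ) (x y c : R) : eval₂ φ z (hO k x y c) =
    φ x * z 0 ^ (k + 2) + (2 ^ k * φ y - φ x) * (z 0 ^ (k + 1) * z 1) +
      φ c * (z 1 ^ (k + 1) * (z 1 - z 0)) := by
  have h2 : φ 2 = 2 := map_ofNat φ 2
  simp [hO, h2]

lemma val_Q (k : ℕ) (a r G δ x y c : R) : eval₂ φ z (QO k a r G δ x y c) =
    eval₂ φ z (fO a r) * eval₂ φ z (gO a G δ) * eval₂ φ z (qO R k) ^ 2 +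
      φ a * eval₂ φ z (hO k x y c) ^ 2 := by
  unfold QO
  simp only [eval₂_add, eval₂_mul, eval₂_pow, eval₂_C]

end val

end forms

section alg

variable {E : Type} [Field E]

/-- the value of `h` at `(1, -1)` -/
def hm (k : ℕ) (x y c : E) : E := x - (2 ^ k * y - x) + c * ((-1) ^ (k + 1) * (-2))

lemma point_norm (h2 : (2 : E) ≠ 0) {k : ℕ} {a x y c s t z f g : E} (ha : a ≠ 0)
    (hst : ¬ (s = 0 ∧ t = 0)) (hm0 : hm k x y c ≠ 0)
    (hz : z ^ 2 = f * g * ((s + t) ^ k) ^ 2 + a * (x * s ^ (k + 2) +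
      (2 ^ k * y - x) * (s ^ (k + 1) * t) + c * (t ^ (k + 1) * (t - s))) ^ 2) :
    IsNorm a (f * g) := by
  by_cases hq : (s + t) ^ k = 0
  · have hk : s + t = 0 := eq_zero_of_pow_eq_zero hq
    have ht : t = -s := by linear_combination hk
    have hs : s ≠ 0 := by
      rintro rfl
      exact hst ⟨rfl, by rw [ht, neg_zero]⟩
    have hh : x * s ^ (k + 2) + (2 ^ k * y - x) * (s ^ (k + 1) * t) +
        c * (t ^ (k + 1) * (t - s)) = s ^ (k + 2) * hm k x y c := by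
      rw [ht, neg_pow s (k + 1), hm]
      ring
    rw [hq, hh] at hz
    have h0 : s ^ (k + 2) * hm k x y c ≠ 0 := mul_ne_zero (pow_ne_zero _ hs) hm0
    refine isNorm_of_sq h2 ha (r := z / (s ^ (k + 2) * hm k x y c)) ?_ _
    rw [div_pow, hz]
    field_simp
    ring
  · refine ⟨z / (s + t) ^ k, (x * s ^ (k + 2) + (2 ^ k * y - x) * (s ^ (k + 1) * t) +
        c * (t ^ (k + 1) * (t - s))) / (s + t) ^ k, ?_⟩
    rw [div_pow, div_pow, hz]
    field_simp
    ring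

/-- the local points -/
lemma point_exists {k : ℕ} {a r G δ x y c ν n ρ : E} (h2 : (2 : E) ≠ 0) (hν : ν ≠ 0)
    (hc : c = (δ / ν + ν) / 2)
    (hn1 : n = r * G + x ^ 2) (hn2 : n = (r - a) * (δ + a * G) + a * y ^ 2)
    (hρ : ρ ^ 2 = a ∨ ρ ^ 2 = n ∨ ρ ^ 2 = a * n) :
    ∃ s t z : E, ¬ (s = 0 ∧ t = 0) ∧
      z ^ 2 = (r * s ^ 2 - a * t ^ 2) * (a * G * s ^ 2 + δ * t ^ 2) * ((s + t) ^ k) ^ 2 +
        a * (x * s ^ (k + 2) + (2 ^ k * y - x) * (s ^ (k + 1) * t) +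
          c * (t ^ (k + 1) * (t - s))) ^ 2 := by
  rcases hρ with hρ | hρ | hρ
  · refine ⟨0, 1, ρ * ((δ / ν - ν) / 2), by simp, ?_⟩
    rw [mul_pow, hρ, hc]
    simp only [ne_eq, Nat.add_eq_zero_iff, OfNat.ofNat_ne_zero, and_false, not_false_eq_true,
      zero_pow, one_ne_zero, zero_add, one_pow, mul_zero, mul_one, zero_sub, sub_zero]
    field_simp
    ring
  · refine ⟨1, 1, 2 ^ k * ρ, by simp, ?_⟩
    rw [mul_pow, hρ, hn2]
    have h1 : (1 : E) + 1 = 2 := by norm_num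
    simp only [one_pow, mul_one, sub_self, mul_zero, add_zero, h1]
    ring
  · refine ⟨1, 0, ρ, by simp, ?_⟩
    rw [hρ, hn1]
    simp only [ne_eq, Nat.add_eq_zero_iff, OfNat.ofNat_ne_zero, and_false, not_false_eq_true,
      zero_pow, one_ne_zero, one_pow, mul_zero, mul_one, zero_sub, sub_zero, add_zero, zero_mul]
    ring

end alg

end Pool.Agent.H85.HY
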