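import Pool.Agent.H85.BM.Glob

/-! # Local lemmas for the equation `x² - a y² = f(s,t) g(s,t)` -/

set_option autoImplicit false

namespace Pool.Agent.H85.HY

open NumberField IsDedekindDomain WithZero MvPolynomial
open Pool.Agent.H85.BM
open Pool.Agent.H85.CY (phi val_phi)

section alg

variable {F : Type} [Field F]

/-- the algebra is trivial: the nonzero ones among the two values are norms -/
def Tr (a x y : F) : Prop := (x ≠ 0 → IsNorm a x) ∧ (y ≠ 0 → IsNorm a y)

lemma norm_iff {a x y : F} (h : IsNorm a (x * y)) (hx : x ≠ 0) (hy : y ≠ 0) :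
    IsNorm a x ↔ IsNorm a y := by
  constructor
  · intro h1
    exact IsNorm.of_mul hx h1 h
  · intro h1
    rw [mul_comm] at h
    exact IsNorm.of_mul hy h1 h

lemma isNorm_sq_mul {a z x : F} (hz : z ≠ 0) : IsNorm a (z ^ 2 * x) ↔ IsNorm a x :=
  ⟨fun h => IsNorm.of_mul (pow_ne_zero _ hz) (isNorm_sq z) h, fun h => (isNorm_sq z).mul h⟩

lemma tr_smul {a z z' x y : F} (hz : z ≠ 0) (hz' : z' ≠ 0) :
    Tr a (z ^ 2 * x) (z' ^ 2 * y) ↔ Tr a x y := by
  unfold Tr
  rw [isNorm_sq_mul hz, isNorm_sq_mul hz', mul_ne_zero_iff, mul_ne_zero_iff]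
  simp [hz, hz']

end alg

section loc

variable {L : Type} [Field L] [NumberField L] (w : HeightOneSpectrum (𝓞 L))

lemma even_tr (a : w.adicCompletion L) (ha : Unr w a) {x y : w.adicCompletion L}
    (h : IsNorm a (x * y)) (h1 : Valued.v x = 1 ∨ Valued.v y = 1) : Tr a x y := by
  rcases ha with ha | ha
  · exact ⟨fun _ => ha _, fun _ => ha _⟩
  have one : ∀ z : w.adicCompletion L, Valued.v z = 1 → IsNorm a z := by
    intro z hz
    have hz0 : z ≠ 0 := by
      rintro rfl
      rw [map_zero] at hz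
      exact zero_ne_one hz
    rw [ha z hz0]
    exact ⟨0, by rw [hz, mul_zero, exp_zero]⟩
  have hne : ∀ z : w.adicCompletion L, Valued.v z = 1 → z ≠ 0 := by
    intro z hz
    rintro rfl
    rw [map_zero] at hz
    exact zero_ne_one hz
  rcases h1 with h1 | h1
  · exact ⟨fun _ => one x h1, fun hy => (norm_iff h (hne x h1) hy).1 (one x h1)⟩
  · exact ⟨fun hx => (norm_iff h hx (hne y h1)).2 (one y h1), fun _ => one y h1⟩

variable [Finite (kk w)]

lemma ram_val (h2 : Valued.v (2 : w.adicCompletion L) = 1) (a r x S : w.adicCompletion L) {j : ℤ}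
    (ha : Valued.v a = exp (2 * j + 1)) (hr : Valued.v r = 1) (hS : Valued.v S ≤ 1)
    (hx : Valued.v (x - r * S ^ 2) < 1) (h1 : Valued.v x = 1) :
    IsNorm a x ↔ ∃ η : w.adicCompletion L, Valued.v η ≤ 1 ∧ Valued.v (η ^ 2 - r) < 1 := by
  have hS1 : Valued.v S = 1 := by
    have h3 : Valued.v (r * S ^ 2) = 1 := by
      have h4 : r * S ^ 2 = -(x - r * S ^ 2) + x := by ring
      rw [h4]
      exact v_add_one w (by rwa [Valuation.map_neg]) h1
    apply sq_one w
    rwa [map_mul, hr, one_mul] at h3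
  have hS0 : S ≠ 0 := by
    rintro rfl
    rw [map_zero] at hS1
    exact zero_ne_one hS1
  rw [ram_unit w h2 a x ha h1]
  constructor
  · rintro ⟨η, hη, h3⟩
    refine ⟨η / S, by rw [map_div₀, hS1, div_one]; exact hη, ?_⟩
    have h4 : (η / S) ^ 2 - r = ((η ^ 2 - x) + (x - r * S ^ 2)) / S ^ 2 := by
      field_simp
      ring
    rw [h4, map_div₀, map_pow _ S, hS1, one_pow, div_one]
    exact Valuation.map_add_lt _ h3 hx
  · rintro ⟨η, hη, h3⟩
    refine ⟨η * S, by rw [map_mul, hS1, mul_one]; exact hη, ?_⟩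
    have h4 : (η * S) ^ 2 - x = S ^ 2 * (η ^ 2 - r) - (x - r * S ^ 2) := by ring
    rw [h4]
    refine Valuation.map_sub_lt _ (v_mul_lt w ?_ h3) hx
    rw [map_pow, hS1, one_pow]

lemma ram_tr (h2 : Valued.v (2 : w.adicCompletion L) = 1) (a r : w.adicCompletion L) {j : ℤ}
    (ha : Valued.v a = exp (2 * j + 1)) (hr : Valued.v r = 1) {x y S T : w.adicCompletion L}
    (h : IsNorm a (x * y)) (hS : Valued.v S ≤ 1) (hT : Valued.v T ≤ 1)
    (hx : Valued.v (x - r * S ^ 2) < 1) (hy : Valued.v (y - r * T ^ 2) < 1)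
    (h1 : Valued.v x = 1 ∨ Valued.v y = 1) :
    Tr a x y ↔ ∃ η : w.adicCompletion L, Valued.v η ≤ 1 ∧ Valued.v (η ^ 2 - r) < 1 := by
  have hne : ∀ z : w.adicCompletion L, Valued.v z = 1 → z ≠ 0 := by
    intro z hz
    rintro rfl
    rw [map_zero] at hz
    exact zero_ne_one hz
  rcases h1 with h1 | h1
  · rw [← ram_val w h2 a r x S ha hr hS hx h1]
    exact ⟨fun h3 => h3.1 (hne x h1), fun h3 => ⟨fun _ => h3, fun h4 =>
      (norm_iff h (hne x h1) h4).1 h3⟩⟩
  · rw [← ram_val w h2 a r y T ha hr hT hy h1]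
    exact ⟨fun h3 => h3.2 (hne y h1), fun h3 => ⟨fun h4 =>
      (norm_iff h h4 (hne y h1)).2 h3, fun _ => h3⟩⟩

end loc

section glob

variable {K L : Type} [Field K] [NumberField K] [Field L] [NumberField L] [Algebra K L]

lemma eval_le (w : HeightOneSpectrum (𝓞 L)) {σ : Type} (p : MvPolynomial σ (𝓞 K))
    (z : σ → w.adicCompletion L) (hz : ∀ i, Valued.v (z i) ≤ 1) :
    Valued.v (eval z (map (phi K w) p)) ≤ 1 := by
  induction p using MvPolynomial.induction_on with
  | C a =>
    rw [map_C, eval_C]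
    exact phi_le w a
  | add p q hp hq =>
    rw [map_add, map_add]
    exact Valuation.map_add_le _ hp hq
  | mul_X p i hp =>
    rw [map_mul, map_mul, map_X, eval_X, map_mul]
    exact mul_le_one' hp (hz i)

lemma eval_smul2 {F : Type} [Field F] (G : MvPolynomial (Fin 2) F) {d : ℕ}
    (hG : G.IsHomogeneous d) (z : F) (Q : Fin 2 → F) : eval (z • Q) G = z ^ d * eval Q G := by
  rw [eval_eq', eval_eq', Finset.mul_sum]
  refine Finset.sum_congr rfl fun e he => ?_
  have h1 : ∑ i, e i = d := by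
    have h2 := hG (mem_support_iff.1 he)
    rw [Finsupp.weight_apply, Finsupp.sum_fintype] at h2
    · simpa using h2
    · intro i
      simp
  have h2 : ∏ i, (z • Q) i ^ e i = z ^ d * ∏ i, Q i ^ e i := by
    rw [← h1, ← Finset.prod_pow_eq_pow_sum, ← Finset.prod_mul_distrib]
    refine Finset.prod_congr rfl fun i _ => ?_
    rw [Pi.smul_apply, smul_eq_mul, mul_pow]
  rw [h2]
  ring

/-- the two forms generate powers of the two variables -/
def UnitRes {R : Type} [CommRing R] (f g : MvPolynomial (Fin 2) R) : Prop :=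
  ∃ N : ℕ, ∀ i : Fin 2, ∃ A B : MvPolynomial (Fin 2) R, A * f + B * g = X i ^ N

lemma unit_value (w : HeightOneSpectrum (𝓞 L)) {f g : MvPolynomial (Fin 2) (𝓞 K)}
    (h : UnitRes f g) (z : Fin 2 → w.adicCompletion L) (hz : ∀ i, Valued.v (z i) ≤ 1)
    (hz1 : ∃ i, Valued.v (z i) = 1) :
    Valued.v (eval z (map (phi K w) f)) = 1 ∨ Valued.v (eval z (map (phi K w) g)) = 1 := by
  obtain ⟨i, hi⟩ := hz1
  obtain ⟨N, h⟩ := h
  obtain ⟨A, B, hAB⟩ := h i
  by_contra hcon
  rw [not_or] at hcon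
  have h1 : Valued.v (eval z (map (phi K w) f)) < 1 := lt_of_le_of_ne (eval_le w f z hz) hcon.1
  have h2 : Valued.v (eval z (map (phi K w) g)) < 1 := lt_of_le_of_ne (eval_le w g z hz) hcon.2
  have h3 := congrArg (fun p => eval z (map (phi K w) p)) hAB
  simp only [map_add, map_mul, map_pow, map_X, eval_X] at h3
  have h4 : Valued.v (z i ^ N) < 1 := by
    rw [← h3]
    exact Valuation.map_add_lt _ (v_mul_lt w (eval_le w A z hz) h1)
      (v_mul_lt w (eval_le w B z hz) h2)
  rw [map_pow, hi, one_pow] at h4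
  exact lt_irrefl _ h4

/-- normalisation of a pair -/
lemma exists_scale (w : HeightOneSpectrum (𝓞 L)) (z : Fin 2 → w.adicCompletion L) (hz : z ≠ 0) :
    ∃ c : w.adicCompletion L, c ≠ 0 ∧ ∃ z' : Fin 2 → w.adicCompletion L, z = c • z' ∧
      (∀ i, Valued.v (z' i) ≤ 1) ∧ ∃ i, Valued.v (z' i) = 1 := by
  obtain ⟨k, -, hmax⟩ := Finset.exists_max_image (Finset.univ : Finset (Fin 2))
    (fun i => Valued.v (z i)) ⟨0, by simp⟩
  have hk0 : z k ≠ 0 := by
    intro hk0
    apply hz
    funext i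
    have h4 := hmax i (Finset.mem_univ _)
    rw [hk0, map_zero, le_zero_iff, Valuation.zero_iff] at h4
    exact h4
  refine ⟨z k, hk0, (z k)⁻¹ • z, ?_, ?_, k, ?_⟩
  · rw [smul_smul, mul_inv_cancel₀ hk0, one_smul]
  · intro i
    rw [Pi.smul_apply, smul_eq_mul, map_mul, map_inv₀]
    have h0 : Valued.v (z k) ≠ 0 := (Valuation.ne_zero_iff _).2 hk0
    rw [inv_mul_le_iff₀ (zero_lt_iff.2 h0), mul_one]
    exact hmax i (Finset.mem_univ _)
  · rw [Pi.smul_apply, smul_eq_mul, inv_mul_cancel₀ hk0, map_one]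

/-- the value of the algebra at all the places -/
theorem places (w : HeightOneSpectrum (𝓞 L)) (c k r : 𝓞 K) (hc : IsCoprime c 2)
    (hr : IsCoprime r (c ^ 2 + 4 * k)) {i j : ℕ} (f g S T : MvPolynomial (Fin 2) (𝓞 K))
    (hf : f.IsHomogeneous (2 * i)) (hg : g.IsHomogeneous (2 * j)) (hfg : UnitRes f g)
    (hfS : C (c ^ 2 + 4 * k) ∣ f - C r * S ^ 2) (hgT : C (c ^ 2 + 4 * k) ∣ g - C r * T ^ 2)
    (ha0 : c ^ 2 + 4 * k ≠ 0)
    (z : Fin 2 → w.adicCompletion L) (hz : z ≠ 0)
    (h : IsNorm (phi K w (c ^ 2 + 4 * k))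
      (eval z (map (phi K w) f) * eval z (map (phi K w) g))) :
    ((∃ j : ℤ, Valued.v (phi K w (c ^ 2 + 4 * k)) = exp (2 * j + 1)) →
      (Tr (phi K w (c ^ 2 + 4 * k)) (eval z (map (phi K w) f)) (eval z (map (phi K w) g)) ↔
        ∃ η : w.adicCompletion L, Valued.v η ≤ 1 ∧ Valued.v (η ^ 2 - phi K w r) < 1)) ∧
    ((¬ ∃ j : ℤ, Valued.v (phi K w (c ^ 2 + 4 * k)) = exp (2 * j + 1)) →
      Tr (phi K w (c ^ 2 + 4 * k)) (eval z (map (phi K w) f)) (eval z (map (phi K w) g))) := by
  classical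
  set a : 𝓞 K := c ^ 2 + 4 * k with hadef
  have hinj : Function.Injective (algebraMap (𝓞 K) (𝓞 L)) :=
    FaithfulSMul.algebraMap_injective (𝓞 K) (𝓞 L)
  set b : 𝓞 L := algebraMap (𝓞 K) (𝓞 L) a with hb
  have hb0 : b ≠ 0 := by
    intro h0
    apply ha0
    apply hinj
    rw [map_zero]
    exact h0
  obtain ⟨A, hA, hA'⟩ := exp_count w hb0
  have hva : Valued.v (phi K w a) = exp (-(A : ℤ)) := by rw [val_phi, ← hb, hA]
  have h2 : A ≠ 0 → Valued.v (2 : w.adicCompletion L) = 1 := by
    intro hA0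
    by_contra hcon
    have h4 : Valued.v (2 : w.adicCompletion L) < 1 := lt_of_le_of_ne (v_two_le w) hcon
    have ha1 : Valued.v (phi K w a) < 1 := by
      rw [hva, ← exp_zero, exp_lt_exp]
      omega
    have h5 : Valued.v (phi K w c) < 1 := by
      apply sq_lt_one w
      have h6 : phi K w c ^ 2 = phi K w a - (2 * phi K w k) * 2 := by
        rw [hadef]
        simp only [map_add, map_mul, map_pow, map_ofNat]
        ring
      rw [h6]
      refine Valuation.map_sub_lt _ ha1 (v_mul_lt w ?_ h4)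
      rw [map_mul]
      exact mul_le_one' (v_two_le w) (phi_le w k)
    obtain ⟨x, y, hxy⟩ := hc
    have h6 := congrArg (phi K w) hxy
    rw [map_add, map_mul, map_mul, map_one, map_ofNat] at h6
    have h7 : Valued.v (1 : w.adicCompletion L) < 1 := by
      rw [← h6]
      exact Valuation.map_add_lt _ (v_mul_lt w (phi_le w x) h5) (v_mul_lt w (phi_le w y) h4)
    rw [map_one] at h7
    exact lt_irrefl _ h7
  -- normalisation
  obtain ⟨u, hu, z', rfl, hz', hz1⟩ := exists_scale w z hz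
  have ef : eval (u • z') (map (phi K w) f) = (u ^ i) ^ 2 * eval z' (map (phi K w) f) := by
    rw [eval_smul2 _ (hf.map _), ← pow_mul, mul_comm i]
  have eg : eval (u • z') (map (phi K w) g) = (u ^ j) ^ 2 * eval z' (map (phi K w) g) := by
    rw [eval_smul2 _ (hg.map _), ← pow_mul, mul_comm j]
  rw [ef, eg] at h ⊢
  rw [tr_smul (pow_ne_zero _ hu) (pow_ne_zero _ hu)]
  have hn : IsNorm (phi K w a) (eval z' (map (phi K w) f) * eval z' (map (phi K w) g)) := by
    have h5 : (u ^ i) ^ 2 * eval z' (map (phi K w) f) * ((u ^ j) ^ 2 * eval z' (map (phi K w) g)) =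
        (u ^ i * u ^ j) ^ 2 * (eval z' (map (phi K w) f) * eval z' (map (phi K w) g)) := by ring
    rw [h5, isNorm_sq_mul (mul_ne_zero (pow_ne_zero _ hu) (pow_ne_zero _ hu))] at h
    exact h
  have hun := unit_value w hfg z' hz' hz1
  have hmod : ∀ p q : MvPolynomial (Fin 2) (𝓞 K), C a ∣ p - C r * q ^ 2 →
      Valued.v (phi K w a) < 1 →
      Valued.v (eval z' (map (phi K w) p) - phi K w r * eval z' (map (phi K w) q) ^ 2) < 1 := by
    rintro p q ⟨U, hU⟩ ha1
    have h5 := congrArg (fun p => eval z' (map (phi K w) p)) hU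
    simp only [map_sub, map_mul, map_pow, map_C, eval_C] at h5
    rw [h5, mul_comm]
    exact v_mul_lt w (eval_le w U z' hz') ha1
  constructor
  · rintro ⟨l, hl⟩
    have hA0 : A ≠ 0 := by
      intro h0
      rw [hva, h0, exp_inj] at hl
      push_cast at hl
      omega
    have ha1 : Valued.v (phi K w a) < 1 := by
      rw [hva, ← exp_zero, exp_lt_exp]
      omega
    have hr1 : Valued.v (phi K w r) = 1 := by
      by_contra hcon
      have h4 : Valued.v (phi K w r) < 1 := lt_of_le_of_ne (phi_le w r) hcon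
      obtain ⟨x, y, hxy⟩ := hr
      have h5 := congrArg (phi K w) hxy
      rw [map_add, map_mul, map_mul, map_one] at h5
      have h6 : Valued.v (1 : w.adicCompletion L) < 1 := by
        rw [← h5]
        exact Valuation.map_add_lt _ (v_mul_lt w (phi_le w x) h4) (v_mul_lt w (phi_le w y) ha1)
      rw [map_one] at h6
      exact lt_irrefl _ h6
    exact ram_tr w (h2 hA0) (phi K w a) (phi K w r) hl hr1 hn (eval_le w S z' hz')
      (eval_le w T z' hz') (hmod f S hfS ha1) (hmod g T hgT ha1) hun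
  · intro hne
    refine even_tr w _ ?_ hn hun
    by_cases hA0 : A = 0
    · refine unr w (phi K w a) 1 (phi K w c) (phi K w k) one_ne_zero ?_ (phi_le w c)
        (phi_le w k) ?_
      · rw [hadef]
        simp only [map_add, map_mul, map_pow, map_ofNat, one_pow, one_mul]
      · have h4 : phi K w c ^ 2 + 4 * phi K w k = phi K w a := by
          rw [hadef]
          simp only [map_add, map_mul, map_pow, map_ofNat]
        rw [h4, hva, hA0]
        rfl
    · obtain ⟨m, hm⟩ : ∃ m : ℤ, -(A : ℤ) = 2 * m := by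
        refine ⟨-(A : ℤ) / 2, ?_⟩
        by_contra hcon
        apply hne
        refine ⟨-(A : ℤ) / 2, ?_⟩
        rw [hva, exp_inj]
        omega
      obtain ⟨ρ, hρ0, hρ⟩ := exists_val w m
      have h20 := two_ne_zero' w
      have h40 : (4 : w.adicCompletion L) ≠ 0 := by
        have h5 : (4 : w.adicCompletion L) = 2 * 2 := by norm_num
        rw [h5]
        exact mul_ne_zero h20 h20
      have hv4 : Valued.v (4 : w.adicCompletion L) = 1 := by
        have h5 : (4 : w.adicCompletion L) = 2 * 2 := by norm_num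
        rw [h5, map_mul, h2 hA0, one_mul]
      have hva' : Valued.v (phi K w a / ρ ^ 2) = 1 := by
        rw [map_div₀, map_pow, hva, hρ, hm, ← exp_nsmul, ← exp_sub]
        simp
      refine unr w (phi K w a) ρ 0 (phi K w a / ρ ^ 2 / 4) hρ0 ?_ ?_ ?_ ?_
      · field_simp
        ring
      · rw [map_zero]
        exact zero_le_one
      · rw [map_div₀, hva', hv4, div_one]
      · have h5 : (0 : w.adicCompletion L) ^ 2 + 4 * (phi K w a / ρ ^ 2 / 4) =
            phi K w a / ρ ^ 2 := by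
          field_simp
          ring
        rw [h5, hva']

end glob

end Pool.Agent.H85.HY
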