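import Pool.Agent.H85.BM.Glob

/-! # The parity of the number of places of an extension of odd degree -/

set_option autoImplicit false

namespace Pool.Agent.H85.HY

open NumberField IsDedekindDomain WithZero
open Pool.Agent.H85.BM (exp_count)
open Pool.Agent.H85.CY (phi val_phi)

section ff

lemma pow_half (h f : ℕ) : ∃ M, (2 * h + 1) ^ f = 2 * (h * M) + 1 ∧ (Even M ↔ Even f) := by
  induction f with
  | zero => exact ⟨0, by simp, by simp⟩
  | succ f ih =>
    obtain ⟨M, h1, h2⟩ := ih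
    refine ⟨(2 * h + 1) * M + 1, ?_, ?_⟩
    · rw [pow_succ, h1]
      ring
    · rw [Nat.even_add_one, Nat.even_add_one, ← h2, Nat.even_mul]
      have h3 : ¬ Even (2 * h + 1) := by
        rw [Nat.even_add_one]
        simp
      simp [h3]

/-- a nonsquare becomes a square in an extension of finite fields iff the degree is even -/
lemma ff_ext {k K' : Type} [Field k] [Finite k] [Field K'] [Finite K'] (φ : k →+* K')
    (h2 : (2 : k) ≠ 0) (f : ℕ) (hq : Nat.card K' = Nat.card k ^ f) (r : k)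
    (hr : ¬ IsSquare r) : IsSquare (φ r) ↔ Even f := by
  classical
  have := Fintype.ofFinite k
  have := Fintype.ofFinite K'
  have hr0 : r ≠ 0 := fun h => hr (by rw [h]; exact IsSquare.zero)
  have hc : ringChar k ≠ 2 := by
    intro h
    apply h2
    have := ringChar.Nat.cast_ringChar (R := k)
    rw [h] at this
    exact_mod_cast this
  have hc' : ringChar K' ≠ 2 := by
    intro h
    have h3 := ringChar.Nat.cast_ringChar (R := K')
    rw [h] at h3
    apply h2
    apply φ.injective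
    rw [map_zero, map_ofNat]
    exact_mod_cast h3
  have hφ0 : φ r ≠ 0 := (map_ne_zero φ).2 hr0
  rw [FiniteField.isSquare_iff hc' hφ0]
  have hodd := FiniteField.odd_card_of_char_ne_two hc
  obtain ⟨h, hh⟩ : ∃ h, Fintype.card k = 2 * h + 1 := ⟨Fintype.card k / 2, by omega⟩
  obtain ⟨M, hM1, hM2⟩ := pow_half h f
  have hcard : Fintype.card K' / 2 = h * M := by
    rw [← Nat.card_eq_fintype_card, hq, Nat.card_eq_fintype_card, hh, hM1]
    omega
  have hr1 : r ^ h = -1 := by
    have h4 : Fintype.card k / 2 = h := by omega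
    rcases FiniteField.pow_dichotomy hc hr0 with h3 | h3
    · exact absurd ((FiniteField.isSquare_iff hc hr0).2 h3) hr
    · rwa [h4] at h3
  rw [hcard, pow_mul, ← map_pow, hr1, map_neg, map_one, ← hM2]
  constructor
  · intro h3
    by_contra hcon
    rw [Nat.not_even_iff_odd] at hcon
    rw [hcon.neg_one_pow] at h3
    apply h2
    apply φ.injective
    rw [map_zero, map_ofNat]
    linear_combination -h3
  · intro h3
    exact h3.neg_one_pow

end ff

section links

variable {K L : Type} [Field K] [NumberField K] [Field L] [NumberField L] [Algebra K L]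

lemma sq_link (w : HeightOneSpectrum (𝓞 L)) (r : 𝓞 K) :
    (∃ η : w.adicCompletion L, Valued.v η ≤ 1 ∧ Valued.v (η ^ 2 - phi K w r) < 1) ↔
      IsSquare (Ideal.Quotient.mk w.asIdeal (algebraMap (𝓞 K) (𝓞 L) r)) := by
  have hcoe : ∀ s : 𝓞 L, ((algebraMap (𝓞 L) (Pool.Agent.H85.BM.OO w) s :
      Pool.Agent.H85.BM.OO w) : w.adicCompletion L) = phi L w s := by
    intro s
    have h1 : ((algebraMap (𝓞 L) (Pool.Agent.H85.BM.OO w) s :
        Pool.Agent.H85.BM.OO w) : w.adicCompletion L) =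
        algebraMap L (w.adicCompletion L) (algebraMap (𝓞 L) L s) := by
      rw [HeightOneSpectrum.algebraMap_adicCompletion]
      rfl
    rw [h1]
    rfl
  have hphi : phi L w (algebraMap (𝓞 K) (𝓞 L) r) = phi K w r := rfl
  constructor
  · rintro ⟨η, hη, h⟩
    obtain ⟨s, hs⟩ := Pool.Agent.W189.NF.redMap_surjective w
      (IsLocalRing.residue _ (Pool.Agent.H85.BM.toO w η hη))
    have h1 : Pool.Agent.W189.NF.redMap w (s ^ 2 - algebraMap (𝓞 K) (𝓞 L) r) = 0 := by
      rw [map_sub, map_pow, hs]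
      have h2 : IsLocalRing.residue (Pool.Agent.H85.BM.OO w)
          (Pool.Agent.H85.BM.toO w η hη ^ 2 -
            algebraMap (𝓞 L) (Pool.Agent.H85.BM.OO w) (algebraMap (𝓞 K) (𝓞 L) r)) = 0 := by
        rw [Pool.Agent.H85.BM.res_zero]
        have h3 : ((Pool.Agent.H85.BM.toO w η hη ^ 2 -
            algebraMap (𝓞 L) (Pool.Agent.H85.BM.OO w) (algebraMap (𝓞 K) (𝓞 L) r) :
              Pool.Agent.H85.BM.OO w) : w.adicCompletion L) = η ^ 2 - phi K w r := by
          rw [← hphi, ← hcoe]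
          rfl
        rw [h3]
        exact h
      rw [map_sub, map_pow] at h2
      exact h2
    rw [Pool.Agent.W189.NF.redMap_eq_zero] at h1
    rw [← Ideal.Quotient.eq_zero_iff_mem, map_sub, map_pow, sub_eq_zero] at h1
    exact ⟨_, by rw [← h1, sq]⟩
  · rintro ⟨y, hy⟩
    obtain ⟨s, rfl⟩ := Ideal.Quotient.mk_surjective y
    refine ⟨phi L w s, Pool.Agent.H85.BM.phi_le w s, ?_⟩
    have h1 : s ^ 2 - algebraMap (𝓞 K) (𝓞 L) r ∈ w.asIdeal := by
      rw [← Ideal.Quotient.eq_zero_iff_mem, map_sub, map_pow, hy, sq, sub_self]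
    rw [← hphi, ← map_pow, ← map_sub, val_phi]
    rw [← HeightOneSpectrum.intValuation_lt_one_iff_mem] at h1
    exact h1

/-- odd valuation -/
def OddVal {R : Type} [CommRing R] [IsDedekindDomain R] (v : HeightOneSpectrum R) (a : R) :
    Prop := ∃ j : ℤ, v.intValuation a = exp (2 * j + 1)

/-- the places where the valuation of `a` is odd and `r` is not a square modulo the place -/
def Bad {R : Type} [CommRing R] [IsDedekindDomain R] (a r : R) : Set (HeightOneSpectrum R) :=
  {v | OddVal v a ∧ ¬ IsSquare (Ideal.Quotient.mk v.asIdeal r)}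

/-- the place below -/
def below (K : Type) {L : Type} [Field K] [NumberField K] [Field L] [NumberField L] [Algebra K L]
    (w : HeightOneSpectrum (𝓞 L)) : HeightOneSpectrum (𝓞 K) where
  asIdeal := w.asIdeal.under (𝓞 K)
  isPrime := by
    have := w.isPrime
    exact Ideal.IsPrime.under (𝓞 K) w.asIdeal
  ne_bot := by
    have := w.isPrime
    intro h
    exact w.ne_bot (Ideal.eq_bot_of_comap_eq_bot h)

lemma liesOver_below (w : HeightOneSpectrum (𝓞 L)) :
    w.asIdeal.LiesOver (below K w).asIdeal := ⟨rfl⟩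

lemma mem_bad (a r : 𝓞 K) (ha : a ≠ 0) (h2 : IsCoprime a 2)
    (v : HeightOneSpectrum (𝓞 K)) (w : HeightOneSpectrum (𝓞 L))
    (hvw : w.asIdeal.LiesOver v.asIdeal) :
    w ∈ Bad (algebraMap (𝓞 K) (𝓞 L) a) (algebraMap (𝓞 K) (𝓞 L) r) ↔
      v ∈ Bad a r ∧ Odd (v.asIdeal.ramificationIdx' w.asIdeal *
        v.asIdeal.inertiaDeg' w.asIdeal) := by
  classical
  obtain ⟨A, hA, -⟩ := exp_count v ha
  set e := v.asIdeal.ramificationIdx' w.asIdeal with he
  have hw : w.intValuation (algebraMap (𝓞 K) (𝓞 L) a) = exp (-((e * A : ℕ) : ℤ)) := by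
    rw [← HeightOneSpectrum.intValuation_liesOver v w a, hA, ← he, ← exp_nsmul]
    congr 1
    rw [nsmul_eq_mul]
    push_cast
    ring
  have odd_iff : ∀ n : ℕ, (∃ j : ℤ, exp (-(n : ℤ)) = exp (2 * j + 1)) ↔ Odd n := by
    intro n
    constructor
    · rintro ⟨j, hj⟩
      rw [exp_inj] at hj
      rw [Nat.odd_iff]
      omega
    · intro h
      rw [Nat.odd_iff] at h
      refine ⟨-((n : ℤ) + 1) / 2, ?_⟩
      rw [exp_inj]
      omega
  have hval : OddVal w (algebraMap (𝓞 K) (𝓞 L) a) ↔ Odd e ∧ OddVal v a := by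
    unfold OddVal
    rw [hw, hA, odd_iff, odd_iff, Nat.odd_mul]
  -- the residue fields
  have hvm : v.asIdeal.IsMaximal := v.isMaximal
  have hwm : w.asIdeal.IsMaximal := w.isMaximal
  letI : Field (𝓞 K ⧸ v.asIdeal) := Ideal.Quotient.field v.asIdeal
  letI : Field (𝓞 L ⧸ w.asIdeal) := Ideal.Quotient.field w.asIdeal
  have hover : v.asIdeal = w.asIdeal.under (𝓞 K) := hvw.over
  let φ : 𝓞 K ⧸ v.asIdeal →+* 𝓞 L ⧸ w.asIdeal :=
    Ideal.quotientMap w.asIdeal (algebraMap (𝓞 K) (𝓞 L)) (le_of_eq hover)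
  have hφ : ∀ x : 𝓞 K, φ (Ideal.Quotient.mk v.asIdeal x) =
      Ideal.Quotient.mk w.asIdeal (algebraMap (𝓞 K) (𝓞 L) x) := fun x => rfl
  have fin1 : Finite (𝓞 K ⧸ v.asIdeal) := by
    apply Nat.finite_of_card_ne_zero
    exact fun h => v.ne_bot (Ideal.absNorm_eq_zero_iff.1 h)
  have fin2 : Finite (𝓞 L ⧸ w.asIdeal) := by
    apply Nat.finite_of_card_ne_zero
    exact fun h => w.ne_bot (Ideal.absNorm_eq_zero_iff.1 h)
  have hcard : Nat.card (𝓞 L ⧸ w.asIdeal) = Nat.card (𝓞 K ⧸ v.asIdeal) ^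
      v.asIdeal.inertiaDeg' w.asIdeal := by
    have := w.isPrime
    have := v.isPrime
    exact Ideal.absNorm_eq_pow_inertiaDeg'_of_liesOver w.asIdeal v.asIdeal v.isPrime v.ne_bot
  have hup : IsSquare (Ideal.Quotient.mk v.asIdeal r) →
      IsSquare (Ideal.Quotient.mk w.asIdeal (algebraMap (𝓞 K) (𝓞 L) r)) := by
    intro h
    rw [← hφ]
    exact h.map φ
  have h20 : OddVal v a → (2 : 𝓞 K ⧸ v.asIdeal) ≠ 0 := by
    intro hov h20
    have h3 : (2 : 𝓞 K) ∈ v.asIdeal := by
      rw [← Ideal.Quotient.eq_zero_iff_mem, map_ofNat]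
      exact h20
    have h4 : a ∈ v.asIdeal := by
      rw [← HeightOneSpectrum.intValuation_lt_one_iff_mem, hA, ← exp_zero, exp_lt_exp]
      unfold OddVal at hov
      rw [hA, odd_iff, Nat.odd_iff] at hov
      omega
    obtain ⟨x, y, hxy⟩ := h2
    apply v.isPrime.ne_top
    rw [Ideal.eq_top_iff_one, ← hxy]
    exact Ideal.add_mem _ (Ideal.mul_mem_left _ _ h4) (Ideal.mul_mem_left _ _ h3)
  unfold Bad
  rw [Set.mem_ofPred_eq, Set.mem_ofPred_eq, hval, Nat.odd_mul]
  constructor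
  · rintro ⟨⟨h3, h4⟩, h5⟩
    have h6 : ¬ IsSquare (Ideal.Quotient.mk v.asIdeal r) := fun h => h5 (hup h)
    refine ⟨⟨h4, h6⟩, h3, ?_⟩
    rw [← Nat.not_even_iff_odd, ← ff_ext φ (h20 h4) _ hcard _ h6, hφ]
    exact h5
  · rintro ⟨⟨h4, h6⟩, h3, h7⟩
    refine ⟨⟨h3, h4⟩, ?_⟩
    rw [← hφ, ff_ext φ (h20 h4) _ hcard _ h6, Nat.not_even_iff_odd]
    exact h7

set_option linter.deprecated false in
/-- **Parity.** -/
theorem bad_up (a r : 𝓞 K) (ha : a ≠ 0) (h2 : IsCoprime a 2)
    (hodd : Odd (Bad a r).ncard) (hL : Odd (Module.finrank K L)) :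
    (Bad (algebraMap (𝓞 K) (𝓞 L) a) (algebraMap (𝓞 K) (𝓞 L) r)).Finite ∧
      Odd (Bad (algebraMap (𝓞 K) (𝓞 L) a) (algebraMap (𝓞 K) (𝓞 L) r)).ncard := by
  classical
  have hfin : (Bad a r).Finite := by
    apply Set.finite_of_ncard_ne_zero
    intro h
    rw [h] at hodd
    exact absurd hodd (by decide)
  set T := hfin.toFinset with hT
  set TL := Bad (algebraMap (𝓞 K) (𝓞 L) a) (algebraMap (𝓞 K) (𝓞 L) r) with hTL
  let n : HeightOneSpectrum (𝓞 K) → Finset (Ideal (𝓞 L)) := fun v =>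
    (IsDedekindDomain.primesOverFinset v.asIdeal (𝓞 L)).filter fun P =>
      Odd (v.asIdeal.ramificationIdx' P * v.asIdeal.inertiaDeg' P)
  have hn : ∀ v, Odd (n v).card := by
    intro v
    have hvm : v.asIdeal.IsMaximal := v.isMaximal
    have h1 := Ideal.sum_ramification_inertia (𝓞 L) K L v.ne_bot (p := v.asIdeal)
    rw [← h1, Finset.odd_sum_iff_odd_card_odd] at hL
    exact hL
  have himage : HeightOneSpectrum.asIdeal '' TL = ((T.biUnion n : Finset (Ideal (𝓞 L))) :
      Set (Ideal (𝓞 L))) := by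
    ext P
    rw [Finset.mem_coe, Finset.mem_biUnion]
    constructor
    · rintro ⟨w, hw, rfl⟩
      have hov : w.asIdeal.LiesOver (below K w).asIdeal := liesOver_below w
      rw [hTL, mem_bad a r ha h2 (below K w) w hov] at hw
      refine ⟨below K w, ?_, ?_⟩
      · rw [hT, Set.Finite.mem_toFinset]
        exact hw.1
      · rw [Finset.mem_filter, IsDedekindDomain.mem_primesOverFinset_iff (below K w).ne_bot]
        exact ⟨⟨w.isPrime, hov⟩, hw.2⟩
    · rintro ⟨v, hv, hP⟩
      rw [Finset.mem_filter, IsDedekindDomain.mem_primesOverFinset_iff v.ne_bot] at hP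
      obtain ⟨⟨hPp, hPo⟩, hP2⟩ := hP
      have hP0 : P ≠ ⊥ := Ideal.ne_bot_of_liesOver_of_ne_bot v.ne_bot P
      refine ⟨⟨P, hPp, hP0⟩, ?_, rfl⟩
      rw [hT, Set.Finite.mem_toFinset] at hv
      rw [hTL, mem_bad a r ha h2 v ⟨P, hPp, hP0⟩ hPo]
      exact ⟨hv, hP2⟩
  have hinj : Set.InjOn HeightOneSpectrum.asIdeal TL := fun w _ w' _ h =>
    HeightOneSpectrum.ext h
  have hfinL : TL.Finite := by
    have h1 : (HeightOneSpectrum.asIdeal '' TL).Finite := by
      rw [himage]
      exact Finset.finite_toSet _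
    exact h1.of_finite_image hinj
  refine ⟨hfinL, ?_⟩
  have hcard : TL.ncard = (T.biUnion n).card := by
    rw [← Set.ncard_image_of_injOn hinj, himage, Set.ncard_coe_finset]
  rw [hcard, Finset.card_biUnion, Finset.odd_sum_iff_odd_card_odd]
  · have h1 : T.filter (fun v => Odd (n v).card) = T := by
      rw [Finset.filter_eq_self]
      intro v _
      exact hn v
    rw [h1, hT, ← Set.ncard_eq_toFinset_card _ hfin]
    exact hodd
  · intro v _ v' _ hne
    rw [Function.onFun, Finset.disjoint_left]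
    intro P hP hP'
    rw [Finset.mem_filter, IsDedekindDomain.mem_primesOverFinset_iff v.ne_bot] at hP
    rw [Finset.mem_filter, IsDedekindDomain.mem_primesOverFinset_iff v'.ne_bot] at hP'
    apply hne
    apply HeightOneSpectrum.ext
    rw [hP.1.2.over, hP'.1.2.over]

end links

end Pool.Agent.H85.HY
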