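import Pool.Agent.H85.HY.Loc
import Pool.Agent.H85.HY.Par

/-! # The sum of the invariants -/

set_option autoImplicit false

namespace Pool.Agent.H85.HY

open NumberField IsDedekindDomain WithZero MvPolynomial
open Pool.Agent.H85.BM (isNorm_of_sq)
open Pool.Agent.H85.CY (phi val_phi)

lemma complex_tr (a : ℂ) (ha : a ≠ 0) (x y : ℂ) : Tr a x y := by
  obtain ⟨r, hr⟩ := IsAlgClosed.exists_pow_nat_eq a two_pos
  exact ⟨fun _ => isNorm_of_sq two_ne_zero ha hr _, fun _ => isNorm_of_sq two_ne_zero ha hr _⟩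

lemma real_tr (a : ℝ) (ha : 0 < a) (x y : ℝ) : Tr a x y := by
  have h := Real.sq_sqrt ha.le
  exact ⟨fun _ => isNorm_of_sq two_ne_zero ha.ne' h _, fun _ => isNorm_of_sq two_ne_zero ha.ne' h _⟩

/-- the two forms have no common zero -/
lemma not_both {R F : Type} [CommRing R] [Field F] (φ : R →+* F)
    {f g : MvPolynomial (Fin 2) R} (h : UnitRes f g) (z : Fin 2 → F) (hz : z ≠ 0) :
    eval₂ φ z f ≠ 0 ∨ eval₂ φ z g ≠ 0 := by
  by_contra hcon
  rw [not_or, not_not, not_not] at hcon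
  apply hz
  funext i
  obtain ⟨N, h⟩ := h
  obtain ⟨A, B, hAB⟩ := h i
  have h3 := congrArg (fun p => eval₂ φ z p) hAB
  simp only [eval₂_add, eval₂_mul, eval₂_pow, eval₂_X] at h3
  rw [hcon.1, hcon.2, mul_zero, mul_zero, add_zero] at h3
  exact eq_zero_of_pow_eq_zero h3.symm

lemma coprime_two {R : Type} [CommRing R] {c : R} (k : R) (hc : IsCoprime c 2) :
    IsCoprime (c ^ 2 + 4 * k) 2 := by
  have h1 : c ^ 2 + 4 * k = c ^ 2 + 2 * (2 * k) := by ring
  rw [h1]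
  exact IsCoprime.add_mul_left_left (hc.pow_left) _

/-- **The sum of the invariants is `1/2`.** -/
theorem main (K : Type) [Field K] [NumberField K] (c k r : 𝓞 K) (hc : IsCoprime c 2)
    (hr : IsCoprime r (c ^ 2 + 4 * k)) (hbad : Odd (Bad (c ^ 2 + 4 * k) r).ncard) {i j : ℕ}
    (f g S T : MvPolynomial (Fin 2) (𝓞 K))
    (hf : f.IsHomogeneous (2 * i)) (hg : g.IsHomogeneous (2 * j)) (hfg : UnitRes f g)
    (hfS : C (c ^ 2 + 4 * k) ∣ f - C r * S ^ 2) (hgT : C (c ^ 2 + 4 * k) ∣ g - C r * T ^ 2)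
    (L : Type) [Field L] [NumberField L] [Algebra K L] (hL : Odd (Module.finrank K L))
    (z : (w : HeightOneSpectrum (𝓞 L)) → Fin 2 → w.adicCompletion L) (hz : ∀ w, z w ≠ 0)
    (h : ∀ w, Pool.Agent.H85.BM.IsNorm (phi K w (c ^ 2 + 4 * k))
      (eval (z w) (map (phi K w) f) * eval (z w) (map (phi K w) g))) :
    {w | ¬ Tr (phi K w (c ^ 2 + 4 * k)) (eval (z w) (map (phi K w) f))
      (eval (z w) (map (phi K w) g))}.Finite ∧
    Odd {w | ¬ Tr (phi K w (c ^ 2 + 4 * k)) (eval (z w) (map (phi K w) f))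
      (eval (z w) (map (phi K w) g))}.ncard := by
  have ha : c ^ 2 + 4 * k ≠ 0 := by
    intro h0
    have h1 : Bad (c ^ 2 + 4 * k) r = ∅ := by
      rw [Set.eq_empty_iff_forall_notMem]
      rintro v ⟨⟨l, hl⟩, -⟩
      rw [h0, map_zero] at hl
      exact exp_ne_zero hl.symm
    rw [h1, Set.ncard_empty] at hbad
    exact absurd hbad (by decide)
  have key := bad_up (K := K) (L := L) (c ^ 2 + 4 * k) r ha (coprime_two k hc) hbad hL
  have hT : {w | ¬ Tr (phi K w (c ^ 2 + 4 * k)) (eval (z w) (map (phi K w) f))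
      (eval (z w) (map (phi K w) g))} =
      Bad (algebraMap (𝓞 K) (𝓞 L) (c ^ 2 + 4 * k)) (algebraMap (𝓞 K) (𝓞 L) r) := by
    ext w
    obtain ⟨h1, h2⟩ := places w c k r hc hr f g S T hf hg hfg hfS hgT ha (z w) (hz w) (h w)
    unfold Bad OddVal
    rw [Set.mem_ofPred_eq, Set.mem_ofPred_eq, ← sq_link, ← val_phi w]
    constructor
    · intro h3
      have h4 : ∃ j : ℤ, Valued.v (phi K w (c ^ 2 + 4 * k)) = exp (2 * j + 1) := by
        by_contra hcon
        exact h3 (h2 hcon)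
      exact ⟨h4, fun h5 => h3 ((h1 h4).2 h5)⟩
    · rintro ⟨h3, h4⟩ h5
      exact h4 ((h1 h3).1 h5)
  rw [hT]
  exact key

end Pool.Agent.H85.HY
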